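import Mathlib

namespace Pool.Agent.SumCubes

open ArithmeticFunction vonMangoldt Filter Topology

/-- reciprocals of primes that are one modulo three -/
noncomputable def rp (n : ℕ) : ℝ := if n.Prime ∧ (n : ZMod 3) = 1 then (1:ℝ)/n else 0

theorem rp_nonneg (n : ℕ) : 0 ≤ rp n := by
  unfold rp; split_ifs <;> positivity

theorem log_le (n : ℕ) (d : ℝ) (hd : 0 < d) (hn : n ≠ 0) :
    d * (Real.log n / (n:ℝ)^(1+d)) ≤ 1 / n := by
  have hn' : (0:ℝ) < n := by exact_mod_cast Nat.pos_of_ne_zero hn
  have h1 := Real.log_le_rpow_div hn'.le hd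
  rw [Real.rpow_add hn', Real.rpow_one]
  have hp : 0 < (n:ℝ)^d := Real.rpow_pos_of_pos hn' d
  rw [← mul_div_assoc, div_le_div_iff₀ (by positivity) hn']
  rw [le_div_iff₀ hd] at h1
  nlinarith

theorem not_summable_rp : ¬ Summable rp := by
  intro H
  obtain ⟨C, hC⟩ := LSeries_residueClass_lower_bound (q := 3) (a := 1) isUnit_one
  set d : ℕ → ℝ := fun j => 1 / ((j:ℝ) + 1) with hd
  have hd0 : ∀ j, 0 < d j := fun j => by positivity
  have hd1 : ∀ j, d j ≤ 1 := fun j => by
    simp only [hd]
    rw [div_le_one (by positivity)]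
    have : (0:ℝ) ≤ j := Nat.cast_nonneg j
    linarith
  have hdt : Tendsto d atTop (𝓝 0) := tendsto_one_div_add_atTop_nhds_zero_nat
  have key : Tendsto (fun j : ℕ => ∑' n : ℕ, d j * (residueClass (1 : ZMod 3) n / (n:ℝ)^(1 + d j)))
      atTop (𝓝 (∑' n : ℕ, (0:ℝ))) := by
    apply tendsto_tsum_of_dominated_convergence
      (bound := fun n => (if n.Prime then 0 else residueClass (1 : ZMod 3) n) / n + rp n)
    · exact (summable_residueClass_non_primes_div (1 : ZMod 3)).add H
    · intro n
      have h1 : ∀ j, |d j * (residueClass (1 : ZMod 3) n / (n:ℝ)^(1 + d j))| ≤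
          d j * residueClass (1 : ZMod 3) n := by
        intro j
        have hr := residueClass_nonneg (1 : ZMod 3) n
        rw [abs_of_nonneg (mul_nonneg (hd0 j).le (div_nonneg hr (by positivity)))]
        apply mul_le_mul_of_nonneg_left _ (hd0 j).le
        rcases Nat.eq_zero_or_pos n with h0 | h0
        · subst h0; simp
        · apply div_le_self hr
          apply Real.one_le_rpow (by exact_mod_cast h0)
          linarith [hd0 j]
      apply squeeze_zero_norm h1
      simpa using hdt.mul_const (residueClass (1 : ZMod 3) n)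
    · filter_upwards with j n
      have hr := residueClass_nonneg (1 : ZMod 3) n
      rw [Real.norm_eq_abs, abs_of_nonneg (mul_nonneg (hd0 j).le (div_nonneg hr (by positivity)))]
      rcases Nat.eq_zero_or_pos n with h0 | h0
      · subst h0
        simp [rp]
      by_cases hp : n.Prime
      · rw [if_pos hp, zero_div, zero_add]
        by_cases h3 : (n : ZMod 3) = 1
        · have e1 : residueClass (1 : ZMod 3) n = Real.log n := by
            simp only [residueClass, Set.indicator_apply, Set.mem_ofPred_eq]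
            rw [if_pos h3, vonMangoldt_apply_prime hp]
          rw [e1, rp, if_pos ⟨hp, h3⟩]
          exact log_le n (d j) (hd0 j) (by omega)
        · have e1 : residueClass (1 : ZMod 3) n = 0 := by
            simp only [residueClass, Set.indicator_apply, Set.mem_ofPred_eq]
            rw [if_neg h3]
          rw [e1]
          simp [rp_nonneg]
      · rw [if_neg hp]
        have h1 : (n:ℝ) ≤ (n:ℝ)^(1 + d j) := by
          conv_lhs => rw [← Real.rpow_one (n:ℝ)]
          apply Real.rpow_le_rpow_of_exponent_le (by exact_mod_cast h0)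
          linarith [hd0 j]
        have h0' : (0:ℝ) < n := by exact_mod_cast h0
        have h2 : residueClass (1 : ZMod 3) n / (n:ℝ)^(1 + d j) ≤ residueClass (1 : ZMod 3) n / n :=
          div_le_div_of_nonneg_left hr h0' h1
        have h3 : 0 ≤ residueClass (1 : ZMod 3) n / (n:ℝ)^(1 + d j) := div_nonneg hr (by positivity)
        calc d j * (residueClass (1 : ZMod 3) n / (n:ℝ)^(1 + d j))
            ≤ 1 * (residueClass (1 : ZMod 3) n / (n:ℝ)^(1 + d j)) := by
              apply mul_le_mul_of_nonneg_right (hd1 j) h3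
          _ ≤ _ := by rw [one_mul]; linarith [rp_nonneg n]
  rw [tsum_zero] at key
  have low : ∀ j, (1:ℝ)/2 - C * d j ≤
      ∑' n : ℕ, d j * (residueClass (1 : ZMod 3) n / (n:ℝ)^(1 + d j)) := by
    intro j
    have h1 := hC (x := 1 + d j) ⟨by linarith [hd0 j], by linarith [hd1 j]⟩
    rw [tsum_mul_left]
    have h2 : ((Nat.totient 3 : ℕ) : ℝ) = 2 := by
      have : Nat.totient 3 = 2 := by decide
      rw [this]; norm_num
    rw [h2, add_sub_cancel_left] at h1
    have h3 := mul_le_mul_of_nonneg_left h1 (hd0 j).le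
    refine le_trans (le_of_eq ?_) h3
    have := (hd0 j).ne'
    field_simp
  have lim : Tendsto (fun j => (1:ℝ)/2 - C * d j) atTop (𝓝 (1/2 - C * 0)) :=
    tendsto_const_nhds.sub (hdt.const_mul C)
  have := le_of_tendsto_of_tendsto' lim key low
  norm_num at this

theorem exists_primes (y : ℕ) (M : ℝ) : ∃ P : Finset ℕ,
    (∀ p ∈ P, p.Prime ∧ p % 3 = 1 ∧ y < p) ∧ M ≤ ∑ p ∈ P, (1:ℝ)/p := by
  have h := (not_summable_iff_tendsto_nat_atTop_of_nonneg rp_nonneg).1 not_summable_rp
  obtain ⟨N, hN⟩ := (h.eventually_ge_atTop (M + ∑ n ∈ Finset.range (y+1), rp n)).exists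
  classical
  refine ⟨(Finset.range N).filter (fun n : ℕ => (n.Prime ∧ (n : ZMod 3) = 1) ∧ y < n), ?_, ?_⟩
  · intro p hp
    rw [Finset.mem_filter] at hp
    refine ⟨hp.2.1.1, ?_, hp.2.2⟩
    have := hp.2.1.2
    have h1 : ((p : ℕ) : ZMod 3) = ((1 : ℕ) : ZMod 3) := by simpa using this
    rw [ZMod.natCast_eq_natCast_iff'] at h1
    simpa using h1
  · have h1 : ∑ n ∈ Finset.range N, rp n ≤
        ∑ p ∈ (Finset.range N).filter (fun n : ℕ => (n.Prime ∧ (n : ZMod 3) = 1) ∧ y < n), (1:ℝ)/p +
        ∑ n ∈ Finset.range (y+1), rp n := by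
      have h2 : ∑ n ∈ Finset.range N, rp n = ∑ n ∈ (Finset.range N).filter (fun n : ℕ => y < n), rp n +
          ∑ n ∈ (Finset.range N).filter (fun n : ℕ => ¬ y < n), rp n :=
        (Finset.sum_filter_add_sum_filter_not _ _ _).symm
      rw [h2]
      apply add_le_add
      · apply le_of_eq
        unfold rp
        rw [← Finset.sum_filter, Finset.filter_filter]
        apply Finset.sum_congr _ (fun _ _ => rfl)
        ext n
        simp only [Finset.mem_filter]
        tauto
      · apply Finset.sum_le_sum_of_subset_of_nonneg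
        · intro n hn
          simp only [Finset.mem_filter, Finset.mem_range] at hn ⊢
          omega
        · intro n _ _
          exact rp_nonneg n
    linarith

end Pool.Agent.SumCubes
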