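import Mathlib

namespace Pool.Agent.SumCubes

open Real

theorem gamma_add (k : ℕ) :
    Real.Gamma (4/3 + k) = Real.Gamma (4/3) * ∏ j ∈ Finset.range k, ((4:ℝ)/3 + j) := by
  induction k with
  | zero => simp
  | succ k ih =>
    rw [Finset.prod_range_succ, ← mul_assoc, ← ih]
    have h : ((4:ℝ)/3 + k) ≠ 0 := by positivity
    have := Real.Gamma_add_one h
    rw [mul_comm, ← this]
    push_cast
    ring_nf

theorem gamma_le (n : ℕ) (hn : n ≠ 0) :
    Real.Gamma (n + 1/3) ≤ ((n-1).factorial : ℝ) * (n:ℝ) ^ ((1:ℝ)/3) := by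
  have h := Real.BohrMollerup.f_add_nat_le (f := Real.log ∘ Real.Gamma) (n := n) (x := 1/3)
    Real.convexOn_log_Gamma ?_ hn (by norm_num) (by norm_num)
  · simp only [Function.comp_apply] at h
    have hn' : (0:ℝ) < n := by exact_mod_cast Nat.pos_of_ne_zero hn
    have hG : 0 < Real.Gamma (n + 1/3) := Real.Gamma_pos_of_pos (by positivity)
    have hG' : 0 < Real.Gamma n := Real.Gamma_pos_of_pos hn'
    have hr : (0:ℝ) < (n:ℝ)^((1:ℝ)/3) := Real.rpow_pos_of_pos hn' _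
    have e : Real.Gamma n = ((n-1).factorial : ℝ) := by
      obtain ⟨m, rfl⟩ := Nat.exists_eq_succ_of_ne_zero hn
      simp only [Nat.succ_eq_add_one, Nat.cast_add, Nat.cast_one, Nat.add_sub_cancel]
      exact Real.Gamma_nat_eq_factorial m
    rw [← e]
    have h2 : Real.log (Real.Gamma n * (n:ℝ)^((1:ℝ)/3)) = Real.log (Real.Gamma n) + 1/3 * Real.log n := by
      rw [Real.log_mul hG'.ne' hr.ne', Real.log_rpow hn']
    rw [← h2] at h
    exact (Real.log_le_log_iff hG (by positivity)).1 h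
  · intro y hy
    simp only [Function.comp_apply]
    rw [Real.Gamma_add_one hy.ne', Real.log_mul hy.ne' (Real.Gamma_pos_of_pos hy).ne']
    ring

/-- the product of `f (s+j)` for `j < 2^d` -/
def bp (f : ℕ → ℕ) : ℕ → ℕ → ℕ
  | 0, s => f s
  | d+1, s => bp f d s * bp f d (s + 2^d)

theorem bp_eq (f : ℕ → ℕ) (d s : ℕ) : bp f d s = ∏ j ∈ Finset.range (2^d), f (s + j) := by
  induction d generalizing s with
  | zero => simp [bp]
  | succ d ih =>
    rw [bp, ih, ih, pow_succ, mul_two, Finset.prod_range_add]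
    simp only [add_assoc]

theorem bp_next (f : ℕ → ℕ) (d s : ℕ) :
    (∏ j ∈ Finset.range s, f j) * bp f d s = ∏ j ∈ Finset.range (s + 2^d), f j := by
  rw [bp_eq, Finset.prod_range_add]

/-- the product of `f j` for `j < 1727` -/
def big (f : ℕ → ℕ) : ℕ :=
  bp f 10 0 * bp f 9 1024 * bp f 7 1536 * bp f 5 1664 * bp f 4 1696 * bp f 3 1712 * bp f 2 1720 *
    bp f 1 1724 * bp f 0 1726

theorem big_eq (f : ℕ → ℕ) : big f = ∏ j ∈ Finset.range 1727, f j := by
  unfold big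
  have h0 := bp_next f 10 0
  have h1 := bp_next f 9 1024
  have h2 := bp_next f 7 1536
  have h3 := bp_next f 5 1664
  have h4 := bp_next f 4 1696
  have h5 := bp_next f 3 1712
  have h6 := bp_next f 2 1720
  have h7 := bp_next f 1 1724
  have h8 := bp_next f 0 1726
  norm_num at h0 h1 h2 h3 h4 h5 h6 h7 h8
  rw [h0, h1, h2, h3, h4, h5, h6, h7, h8]

theorem num : 100000 * (12 * big (fun j => 3 * (j+1))) ≤ 89304 * big (fun j => 4 + 3 * j) := by
  decide +kernel

theorem fact_eq (k : ℕ) : ((∏ j ∈ Finset.range k, (3 * (j+1)) : ℕ) : ℝ) = (k.factorial : ℝ) * 3^k := by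
  induction k with
  | zero => simp
  | succ k ih =>
    rw [Finset.prod_range_succ, Nat.factorial_succ]
    push_cast at ih ⊢
    rw [ih]
    ring

theorem pr_eq (k : ℕ) :
    (∏ j ∈ Finset.range k, ((4:ℝ)/3 + j)) * 3^k = ((∏ j ∈ Finset.range k, (4 + 3 * j) : ℕ) : ℝ) := by
  induction k with
  | zero => simp
  | succ k ih =>
    rw [Finset.prod_range_succ, Finset.prod_range_succ, Nat.cast_mul, ← ih]
    push_cast
    ring

theorem aux (P F T : ℝ) (hT : 0 < T)
    (h : 100000 * (12 * (F * T)) ≤ 89304 * (P * T)) : F * 12 ≤ 0.89304 * P := by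
  have h8 : (100000 * (12 * F)) * T ≤ (89304 * P) * T := by linarith
  have h9 : 100000 * (12 * F) ≤ 89304 * P := le_of_mul_le_mul_right h8 hT
  linarith

theorem gamma_of (k : ℕ)
    (h2 : Real.Gamma (4/3) * ∏ j ∈ Finset.range k, ((4:ℝ)/3 + j) ≤ (k.factorial : ℝ) * 12)
    (h7 : 100000 * (12 * ∏ j ∈ Finset.range k, (3 * (j+1))) ≤
      89304 * ∏ j ∈ Finset.range k, (4 + 3 * j)) : Real.Gamma (4/3) ≤ 0.89304 := by
  have h8 : ((100000 * (12 * ∏ j ∈ Finset.range k, (3 * (j+1))) : ℕ):ℝ) ≤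
      ((89304 * ∏ j ∈ Finset.range k, (4 + 3 * j) : ℕ) : ℝ) := by
    exact_mod_cast h7
  rw [Nat.cast_mul, Nat.cast_mul, Nat.cast_mul, fact_eq, ← pr_eq] at h8
  have hp : (0:ℝ) < ∏ j ∈ Finset.range k, ((4:ℝ)/3 + j) := Finset.prod_pos (fun j _ => by positivity)
  have h3k : (0:ℝ) < 3^k := by positivity
  have h10 := aux _ _ _ h3k (by simpa using h8)
  exact le_of_mul_le_mul_right (h2.trans h10) hp

theorem gamma_bound : Real.Gamma (4/3) ≤ 0.89304 := by
  have h1 := gamma_add 1727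
  have h2 := gamma_le 1728 (by norm_num)
  have h3 : (4:ℝ)/3 + (1727:ℕ) = ((1728:ℕ):ℝ) + 1/3 := by norm_num
  rw [h3] at h1
  rw [h1] at h2
  have h4 : (((1728:ℕ):ℝ)) ^ ((1:ℝ)/3) = 12 := by
    have : (((1728:ℕ):ℝ)) = 12^(3:ℝ) := by norm_num
    rw [this, ← Real.rpow_mul (by norm_num)]
    norm_num
  rw [h4] at h2
  refine gamma_of 1727 h2 ?_
  have := num
  rwa [big_eq, big_eq] at this

end Pool.Agent.SumCubes
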