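import Mathlib

namespace Pool.Agent.SumCubes

open Real MeasureTheory

/-- the open unit cell with lower corner `z` -/
def cell (z : Fin 3 → ℤ) : Set (Fin 3 → ℝ) :=
  Set.pi Set.univ (fun i => Set.Ioo (z i : ℝ) (z i + 1))

theorem cell_vol (z : Fin 3 → ℤ) : volume (cell z) = 1 := by
  unfold cell
  rw [volume_pi_pi]
  simp

theorem cell_meas (z : Fin 3 → ℤ) : MeasurableSet (cell z) := by
  unfold cell
  exact MeasurableSet.univ_pi (fun i => measurableSet_Ioo)

theorem cell_disj (z w : Fin 3 → ℤ) (h : z ≠ w) : Disjoint (cell z) (cell w) := by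
  rw [Set.disjoint_left]
  intro x hx hy
  apply h
  funext i
  have h1 := hx i (Set.mem_univ i)
  have h2 := hy i (Set.mem_univ i)
  simp only [Set.mem_Ioo] at h1 h2
  have h3 : (z i : ℝ) < w i + 1 := lt_trans h1.1 h2.2
  have h4 : (w i : ℝ) < z i + 1 := lt_trans h2.1 h1.2
  have h5 : z i < w i + 1 := by exact_mod_cast h3
  have h6 : w i < z i + 1 := by exact_mod_cast h4
  omega

/-- sign change of a positive triple, as a cell corner -/
def sg (e : Fin 3 → Bool) (a : Fin 3 → ℕ) : Fin 3 → ℤ :=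
  fun i => if e i then (a i : ℤ) - 1 else - (a i : ℤ)

theorem sg_inj (e e' : Fin 3 → Bool) (a a' : Fin 3 → ℕ) (ha : ∀ i, 1 ≤ a i) (ha' : ∀ i, 1 ≤ a' i)
    (h : sg e a = sg e' a') : e = e' ∧ a = a' := by
  have key : ∀ i, e i = e' i ∧ a i = a' i := by
    intro i
    have hi := congrFun h i
    have h1 := ha i
    have h2 := ha' i
    simp only [sg] at hi
    cases h3 : e i <;> cases h4 : e' i <;> simp [h3, h4] at hi ⊢ <;> omega
  exact ⟨funext fun i => (key i).1, funext fun i => (key i).2⟩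

theorem cell_sub (e : Fin 3 → Bool) (a : Fin 3 → ℕ) (ha : ∀ i, 1 ≤ a i) (r : ℝ) (hr : 0 < r)
    (h : ∑ i, (a i : ℝ)^3 ≤ r^3) :
    cell (sg e a) ⊆ {x : Fin 3 → ℝ | (∑ i, |x i| ^ (3:ℝ)) ^ (1 / (3:ℝ)) < r} := by
  intro x hx
  have hb : ∀ i, |x i| < a i := by
    intro i
    have h1 := hx i (Set.mem_univ i)
    simp only [sg, Set.mem_Ioo] at h1
    have h2 := ha i
    have h2' : (1:ℝ) ≤ a i := by exact_mod_cast h2
    rw [abs_lt]
    cases h3 : e i <;> simp [h3] at h1 <;> constructor <;> linarith [h1.1, h1.2]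
  have hs : ∑ i, |x i| ^ (3:ℝ) < r^3 := by
    refine lt_of_lt_of_le ?_ h
    apply Finset.sum_lt_sum_of_nonempty Finset.univ_nonempty
    intro i _
    have : |x i| ^ (3:ℝ) = |x i| ^ 3 := by
      rw [← Real.rpow_natCast]; norm_num
    rw [this]
    exact pow_lt_pow_left₀ (hb i) (abs_nonneg _) (by norm_num)
  simp only [Set.mem_ofPred_eq]
  have h0 : 0 ≤ ∑ i, |x i| ^ (3:ℝ) := by positivity
  calc (∑ i, |x i| ^ (3:ℝ)) ^ (1 / (3:ℝ)) < (r^3) ^ (1 / (3:ℝ)) :=
        Real.rpow_lt_rpow h0 hs (by norm_num)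
    _ = r := by
        rw [← Real.rpow_natCast, ← Real.rpow_mul hr.le]
        norm_num

theorem pos_count (A : Finset (Fin 3 → ℕ)) (r : ℝ) (hr : 0 < r)
    (h : ∀ a ∈ A, (∀ i, 1 ≤ a i) ∧ ∑ i, (a i : ℝ)^3 ≤ r^3) :
    (A.card : ℝ) ≤ Real.Gamma (4/3) ^ 3 * r^3 := by
  classical
  set B : Finset (Fin 3 → ℤ) :=
    ((Finset.univ : Finset (Fin 3 → Bool)) ×ˢ A).image (fun p => sg p.1 p.2) with hB
  have hcard : B.card = 8 * A.card := by
    rw [hB, Finset.card_image_of_injOn, Finset.card_product]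
    · simp
    · intro p hp q hq hpq
      simp only [Finset.coe_product, Set.mem_prod, Finset.mem_coe] at hp hq
      obtain ⟨h1, h2⟩ := sg_inj p.1 q.1 p.2 q.2 (h _ hp.2).1 (h _ hq.2).1 hpq
      exact Prod.ext h1 h2
  have hsub : (⋃ z ∈ B, cell z) ⊆ {x : Fin 3 → ℝ | (∑ i, |x i| ^ (3:ℝ)) ^ (1 / (3:ℝ)) < r} := by
    intro x hx
    simp only [Set.mem_iUnion] at hx
    obtain ⟨z, hz, hxz⟩ := hx
    rw [hB, Finset.mem_image] at hz
    obtain ⟨p, hp, rfl⟩ := hz
    rw [Finset.mem_product] at hp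
    exact cell_sub p.1 p.2 (h _ hp.2).1 r hr (h _ hp.2).2 hxz
  have hv := measure_mono (μ := volume) hsub
  rw [measure_biUnion_finset (fun z _ w _ hzw => cell_disj z w hzw) (fun z _ => cell_meas z)] at hv
  simp only [cell_vol, Finset.sum_const, nsmul_eq_mul, mul_one] at hv
  rw [MeasureTheory.volume_sum_rpow_lt (Fin 3) (by norm_num : (1:ℝ) ≤ 3) r] at hv
  have e1 : ((2 * Real.Gamma (1 / 3 + 1)) ^ Fintype.card (Fin 3) /
      Real.Gamma ((Fintype.card (Fin 3) : ℝ) / 3 + 1)) = 8 * Real.Gamma (4/3) ^ 3 := by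
    have : (1:ℝ)/3 + 1 = 4/3 := by norm_num
    rw [this]
    simp only [Fintype.card_fin]
    norm_num [Real.Gamma_two]
    ring
  rw [e1, hcard, ← ENNReal.ofReal_pow hr.le, ← ENNReal.ofReal_mul (by positivity)] at hv
  have h8 : ((8 * A.card : ℕ) : ENNReal) = ENNReal.ofReal ((8 * A.card : ℕ) : ℝ) := by
    rw [ENNReal.ofReal_natCast]
  rw [h8] at hv
  have hG : 0 < Real.Gamma (4/3) := Real.Gamma_pos_of_pos (by norm_num)
  rw [ENNReal.ofReal_le_ofReal_iff (by positivity)] at hv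
  simp only [Fintype.card_fin] at hv
  push_cast at hv
  linarith

end Pool.Agent.SumCubes
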