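import Mathlib
import Pool.Agent.SumCubes.Vol
import Pool.Agent.SumCubes.Gam

namespace Pool.Agent.SumCubes

open Finset

/-- number of triples in a finite ring whose cubes sum to `r` -/
def U (R : Type) [CommRing R] [Fintype R] [DecidableEq R] (r : R) : ℕ :=
  (Finset.univ.filter (fun u : R × R × R => u.1^3 + u.2.1^3 + u.2.2^3 = r)).card

/-- triples of naturals with cubes summing to less than `M` -/
def tri (M : ℕ) : Finset (ℕ × ℕ × ℕ) :=
  (range M ×ˢ range M ×ˢ range M).filter (fun u => u.1^3 + u.2.1^3 + u.2.2^3 < M)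

theorem le_cube (a : ℕ) : a ≤ a^3 := by
  rcases Nat.eq_zero_or_pos a with h | h
  · simp [h]
  · calc a = a^1 := (pow_one a).symm
      _ ≤ a^3 := Nat.pow_le_pow_right h (by norm_num)

theorem mem_tri (M : ℕ) (u : ℕ × ℕ × ℕ) : u ∈ tri M ↔ u.1^3 + u.2.1^3 + u.2.2^3 < M := by
  unfold tri
  rw [mem_filter, mem_product, mem_product, mem_range, mem_range, mem_range]
  have h1 := le_cube u.1
  have h2 := le_cube u.2.1
  have h3 := le_cube u.2.2
  constructor
  · intro h; exact h.2
  · intro h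
    refine ⟨⟨?_, ?_, ?_⟩, h⟩ <;> omega

theorem lt_of_cube_lt (a K M : ℕ) (h : a^3 < M) (hK : M ≤ K^3) : a < K := by
  by_contra hc
  have : K^3 ≤ a^3 := Nat.pow_le_pow_left (by omega) 3
  omega

theorem tri_card (M K : ℕ) (hK : M ≤ K^3) :
    ((tri M).card : ℝ) ≤ Real.Gamma (4/3) ^ 3 * M + 3 * (K:ℝ)^2 := by
  classical
  -- positive part
  set P := (tri M).filter (fun u => 1 ≤ u.1 ∧ 1 ≤ u.2.1 ∧ 1 ≤ u.2.2) with hP
  set Z1 := (tri M).filter (fun u => u.1 = 0)
  set Z2 := (tri M).filter (fun u => u.2.1 = 0)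
  set Z3 := (tri M).filter (fun u => u.2.2 = 0)
  have hcov : tri M ⊆ P ∪ (Z1 ∪ (Z2 ∪ Z3)) := by
    intro u hu
    simp only [mem_union, P, Z1, Z2, Z3, mem_filter, hu, true_and]
    omega
  have hz1 : Z1.card ≤ K^2 := by
    calc Z1.card ≤ ((range K) ×ˢ (range K)).card := by
          apply card_le_card_of_injOn (fun u => (u.2.1, u.2.2))
          · intro u hu
            simp only [Z1, coe_filter, Set.mem_ofPred_eq, mem_tri] at hu
            simp only [coe_product, Set.mem_prod, coe_range, Set.mem_Iio]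
            exact ⟨lt_of_cube_lt _ K M (by omega) hK, lt_of_cube_lt _ K M (by omega) hK⟩
          · intro u hu v hv h
            simp only [Z1, coe_filter, Set.mem_ofPred_eq] at hu hv
            simp only [Prod.mk.injEq] at h
            exact Prod.ext (by rw [hu.2, hv.2]) (Prod.ext h.1 h.2)
      _ = K^2 := by simp [sq]
  have hz2 : Z2.card ≤ K^2 := by
    calc Z2.card ≤ ((range K) ×ˢ (range K)).card := by
          apply card_le_card_of_injOn (fun u => (u.1, u.2.2))
          · intro u hu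
            simp only [Z2, coe_filter, Set.mem_ofPred_eq, mem_tri] at hu
            simp only [coe_product, Set.mem_prod, coe_range, Set.mem_Iio]
            exact ⟨lt_of_cube_lt _ K M (by omega) hK, lt_of_cube_lt _ K M (by omega) hK⟩
          · intro u hu v hv h
            simp only [Z2, coe_filter, Set.mem_ofPred_eq] at hu hv
            simp only [Prod.mk.injEq] at h
            exact Prod.ext h.1 (Prod.ext (by rw [hu.2, hv.2]) h.2)
      _ = K^2 := by simp [sq]
  have hz3 : Z3.card ≤ K^2 := by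
    calc Z3.card ≤ ((range K) ×ˢ (range K)).card := by
          apply card_le_card_of_injOn (fun u => (u.1, u.2.1))
          · intro u hu
            simp only [Z3, coe_filter, Set.mem_ofPred_eq, mem_tri] at hu
            simp only [coe_product, Set.mem_prod, coe_range, Set.mem_Iio]
            exact ⟨lt_of_cube_lt _ K M (by omega) hK, lt_of_cube_lt _ K M (by omega) hK⟩
          · intro u hu v hv h
            simp only [Z3, coe_filter, Set.mem_ofPred_eq] at hu hv
            simp only [Prod.mk.injEq] at h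
            exact Prod.ext h.1 (Prod.ext h.2 (by rw [hu.2, hv.2]))
      _ = K^2 := by simp [sq]
  have hPc : (P.card : ℝ) ≤ Real.Gamma (4/3) ^ 3 * M := by
    rcases Nat.eq_zero_or_pos M with h0 | h0
    · have : P = ∅ := by
        rw [eq_empty_iff_forall_notMem]
        intro u hu
        simp only [P, mem_filter, mem_tri] at hu
        omega
      simp [this, h0]
    · have hr : (0:ℝ) < (M:ℝ)^((1:ℝ)/3) := Real.rpow_pos_of_pos (by exact_mod_cast h0) _
      have hr3 : ((M:ℝ)^((1:ℝ)/3))^3 = M := by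
        rw [← Real.rpow_natCast, ← Real.rpow_mul (by positivity)]
        norm_num
      have := pos_count (P.image (fun u => ![u.1, u.2.1, u.2.2])) _ hr ?_
      · rw [hr3, card_image_of_injective] at this
        · exact this
        · intro u v h
          have h0 := congrFun h 0
          have h1 := congrFun h 1
          have h2 := congrFun h 2
          simp at h0 h1 h2
          exact Prod.ext h0 (Prod.ext h1 h2)
      · intro a ha
        rw [mem_image] at ha
        obtain ⟨u, hu, rfl⟩ := ha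
        simp only [P, mem_filter, mem_tri] at hu
        constructor
        · intro i
          fin_cases i
          · exact hu.2.1
          · exact hu.2.2.1
          · exact hu.2.2.2
        · rw [hr3]
          simp only [Fin.sum_univ_three, Matrix.cons_val_zero, Matrix.cons_val_one, Matrix.cons_val]
          have : u.1^3 + u.2.1^3 + u.2.2^3 ≤ M := hu.1.le
          exact_mod_cast this
  have h1 : (tri M).card ≤ P.card + (K^2 + (K^2 + K^2)) := by
    calc (tri M).card ≤ (P ∪ (Z1 ∪ (Z2 ∪ Z3))).card := card_le_card hcov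
      _ ≤ P.card + (Z1 ∪ (Z2 ∪ Z3)).card := card_union_le _ _
      _ ≤ P.card + (Z1.card + (Z2 ∪ Z3).card) := by gcongr; exact card_union_le _ _
      _ ≤ P.card + (Z1.card + (Z2.card + Z3.card)) := by gcongr; exact card_union_le _ _
      _ ≤ _ := by gcongr
  have h2 : ((tri M).card : ℝ) ≤ P.card + ((K:ℝ)^2 + ((K:ℝ)^2 + (K:ℝ)^2)) := by exact_mod_cast h1
  linarith

/-- the triples below `N` in a residue class -/
def trir (N m : ℕ) (r : ZMod m) : Finset (ℕ × ℕ × ℕ) :=
  (tri N).filter (fun u => ((u.1^3 + u.2.1^3 + u.2.2^3 : ℕ) : ZMod m) = r)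

theorem trir_card (N m : ℕ) [NeZero m] (r : ZMod m) :
    (trir N m r).card ≤ U (ZMod m) r * (tri (N / m^3 + 1)).card := by
  classical
  unfold U
  rw [← card_product]
  apply card_le_card_of_injOn
    (fun u => (((u.1 : ZMod m), (u.2.1 : ZMod m), (u.2.2 : ZMod m)), (u.1 / m, u.2.1 / m, u.2.2 / m)))
  · intro u hu
    simp only [trir, coe_filter, Set.mem_ofPred_eq, mem_tri] at hu
    simp only [coe_product, Set.mem_prod, coe_filter, Set.mem_ofPred_eq, mem_univ, true_and,
      Finset.mem_coe, mem_tri]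
    constructor
    · have := hu.2
      push_cast at this
      exact this
    · have hm : 0 < m^3 := pow_pos (Nat.pos_of_ne_zero (NeZero.ne m)) 3
      rw [Nat.lt_succ_iff, Nat.le_div_iff_mul_le hm]
      have e1 : (u.1/m)^3 * m^3 ≤ u.1^3 := by
        rw [← mul_pow]; exact Nat.pow_le_pow_left (Nat.div_mul_le_self _ _) 3
      have e2 : (u.2.1/m)^3 * m^3 ≤ u.2.1^3 := by
        rw [← mul_pow]; exact Nat.pow_le_pow_left (Nat.div_mul_le_self _ _) 3
      have e3 : (u.2.2/m)^3 * m^3 ≤ u.2.2^3 := by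
        rw [← mul_pow]; exact Nat.pow_le_pow_left (Nat.div_mul_le_self _ _) 3
      rw [add_mul, add_mul]
      omega
  · intro u _ v _ h
    simp only [Prod.mk.injEq] at h
    obtain ⟨⟨h1, h2, h3⟩, h4, h5, h6⟩ := h
    have key : ∀ a b : ℕ, (a : ZMod m) = (b : ZMod m) → a / m = b / m → a = b := by
      intro a b hab hd
      rw [ZMod.natCast_eq_natCast_iff'] at hab
      rw [← Nat.div_add_mod a m, ← Nat.div_add_mod b m, hab, hd]
    exact Prod.ext (key _ _ h1 h4) (Prod.ext (key _ _ h2 h5) (key _ _ h3 h6))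

/-- sums of three cubes below `N` in a residue class -/
noncomputable def S (N m : ℕ) (r : ZMod m) : Finset ℕ := by
  classical
  exact (range N).filter (fun n => (∃ a b c : ℕ, a^3 + b^3 + c^3 = n) ∧ (n : ZMod m) = r)

/-- those with a representation by distinct numbers -/
noncomputable def SD (N m : ℕ) (r : ZMod m) : Finset ℕ := by
  classical
  exact (range N).filter (fun n => (∃ a b c : ℕ, a ≠ b ∧ a ≠ c ∧ b ≠ c ∧ a^3 + b^3 + c^3 = n) ∧
    (n : ZMod m) = r)

theorem six (a b c : ℕ) (hab : a ≠ b) (hac : a ≠ c) (hbc : b ≠ c) :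
    ({(a,b,c),(a,c,b),(b,a,c),(b,c,a),(c,a,b),(c,b,a)} : Finset (ℕ × ℕ × ℕ)).card = 6 := by
  rw [card_insert_of_notMem, card_insert_of_notMem, card_insert_of_notMem, card_insert_of_notMem,
    card_insert_of_notMem, card_singleton] <;> simp only [mem_insert, mem_singleton, Prod.mk.injEq] <;> omega

theorem SD_card (N m : ℕ) (r : ZMod m) : 6 * (SD N m r).card ≤ (trir N m r).card := by
  classical
  set s := (trir N m r).filter (fun u => u.1^3 + u.2.1^3 + u.2.2^3 ∈ SD N m r) with hs
  have h1 : 6 * (SD N m r).card ≤ s.card := by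
    apply mul_card_image_le_card_of_maps_to (f := fun u : ℕ × ℕ × ℕ => u.1^3 + u.2.1^3 + u.2.2^3)
    · intro u hu
      exact (mem_filter.1 hu).2
    · intro n hn
      have hn' := hn
      simp only [SD, mem_filter, mem_range] at hn'
      obtain ⟨hN, ⟨a, b, c, hab, hac, hbc, habc⟩, hr⟩ := hn'
      rw [← six a b c hab hac hbc]
      apply card_le_card
      intro u hu
      simp only [mem_insert, mem_singleton] at hu
      have hsum : u.1^3 + u.2.1^3 + u.2.2^3 = n := by
        rcases hu with rfl | rfl | rfl | rfl | rfl | rfl <;> simp only <;> omega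
      rw [mem_filter, hs, mem_filter, trir, mem_filter, mem_tri, hsum]
      exact ⟨⟨⟨hN, hr⟩, hn⟩, rfl⟩
  exact h1.trans (card_le_card (filter_subset _ _))

theorem S_card (N m K : ℕ) (hK : N ≤ K^3) (r : ZMod m) :
    (S N m r).card ≤ (SD N m r).card + K^2 := by
  classical
  have hcov : S N m r ⊆ SD N m r ∪ ((range K) ×ˢ (range K)).image (fun p => 2 * p.1^3 + p.2^3) := by
    intro n hn
    simp only [S, mem_filter, mem_range] at hn
    obtain ⟨hN, ⟨a, b, c, habc⟩, hr⟩ := hn
    rw [mem_union]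
    by_cases h : a ≠ b ∧ a ≠ c ∧ b ≠ c
    · left
      simp only [SD, mem_filter, mem_range]
      exact ⟨hN, ⟨a, b, c, h.1, h.2.1, h.2.2, habc⟩, hr⟩
    · right
      rw [mem_image]
      have ha := lt_of_cube_lt a K N (by omega) hK
      have hb := lt_of_cube_lt b K N (by omega) hK
      have hc := lt_of_cube_lt c K N (by omega) hK
      by_cases h1 : a = b
      · exact ⟨(a, c), by simp [ha, hc], by subst h1; simp only; omega⟩
      · by_cases h2 : a = c
        · exact ⟨(a, b), by simp [ha, hb], by subst h2; simp only; omega⟩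
        · have h3 : b = c := by tauto
          exact ⟨(b, a), by simp [ha, hb], by subst h3; simp only; omega⟩
  calc (S N m r).card ≤ _ := card_le_card hcov
    _ ≤ (SD N m r).card + (((range K) ×ˢ (range K)).image (fun p => 2 * p.1^3 + p.2^3)).card :=
        card_union_le _ _
    _ ≤ (SD N m r).card + ((range K) ×ˢ (range K)).card := by gcongr; exact card_image_le
    _ = _ := by simp [sq]

theorem S_card_le (N m : ℕ) [NeZero m] (r : ZMod m) : (S N m r).card ≤ N / m + 1 := by
  classical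
  have hm : 0 < m := Nat.pos_of_ne_zero (NeZero.ne m)
  calc (S N m r).card ≤ (range (N / m + 1)).card := by
        apply card_le_card_of_injOn (fun n => n / m)
        · intro n hn
          simp only [S, coe_filter, Set.mem_ofPred_eq, mem_range] at hn
          simp only [coe_range, Set.mem_Iio]
          exact Nat.lt_succ_of_le (Nat.div_le_div_right hn.1.le)
        · intro a ha b hb h
          simp only [S, coe_filter, Set.mem_ofPred_eq, mem_range] at ha hb
          have hab : (a : ZMod m) = (b : ZMod m) := by rw [ha.2.2, hb.2.2]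
          rw [ZMod.natCast_eq_natCast_iff'] at hab
          rw [← Nat.div_add_mod a m, ← Nat.div_add_mod b m, hab]
          simp only at h
          rw [h]
    _ = _ := by simp

theorem S_card_bd (N m K : ℕ) [NeZero m] (hK : N < K^3) (r : ZMod m) :
    ((S N m r).card : ℝ) ≤
      (U (ZMod m) r : ℝ) * (Real.Gamma (4/3) ^ 3 * ((N:ℝ) / (m:ℝ)^3 + 1) + 3 * (K:ℝ)^2) / 6
      + (K:ℝ)^2 := by
  have h1 := S_card N m K hK.le r
  have h2 := SD_card N m r
  have h3 := trir_card N m r
  have hle : N / m^3 + 1 ≤ K^3 := by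
    have : N / m^3 ≤ N := Nat.div_le_self _ _
    omega
  have h4 := tri_card (N / m^3 + 1) K hle
  have hG : 0 < Real.Gamma (4/3) := Real.Gamma_pos_of_pos (by norm_num)
  have h5 : ((N / m^3 + 1 : ℕ) : ℝ) ≤ (N:ℝ) / (m:ℝ)^3 + 1 := by
    push_cast
    have := @Nat.cast_div_le ℝ _ _ _ N (m^3)
    push_cast at this
    linarith
  have h6 : ((tri (N / m^3 + 1)).card : ℝ) ≤
      Real.Gamma (4/3) ^ 3 * ((N:ℝ) / (m:ℝ)^3 + 1) + 3 * (K:ℝ)^2 := by
    refine h4.trans ?_
    gcongr
  have h7 : (6 * (SD N m r).card : ℝ) ≤ (U (ZMod m) r : ℝ) * ((tri (N / m^3 + 1)).card : ℝ) := by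
    exact_mod_cast h2.trans h3
  have h8 : (6 * (SD N m r).card : ℝ) ≤ (U (ZMod m) r : ℝ) *
      (Real.Gamma (4/3) ^ 3 * ((N:ℝ) / (m:ℝ)^3 + 1) + 3 * (K:ℝ)^2) := by
    refine h7.trans ?_
    gcongr
  have h9 : ((S N m r).card : ℝ) ≤ (SD N m r).card + (K:ℝ)^2 := by exact_mod_cast h1
  linarith

/-- the counting function of sums of three cubes -/
noncomputable def cnt (N : ℕ) : ℕ :=
  Set.ncard {n : ℕ | n < N ∧ ∃ a b c : ℕ, a ^ 3 + b ^ 3 + c ^ 3 = n}

theorem cnt_eq (N m : ℕ) [NeZero m] : cnt N = ∑ r : ZMod m, (S N m r).card := by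
  classical
  have h1 : {n : ℕ | n < N ∧ ∃ a b c : ℕ, a ^ 3 + b ^ 3 + c ^ 3 = n} =
      (((range N).filter (fun n => ∃ a b c : ℕ, a^3 + b^3 + c^3 = n) : Finset ℕ) : Set ℕ) := by
    ext n; simp
  unfold cnt
  rw [h1, Set.ncard_coe_finset,
    card_eq_sum_card_fiberwise (f := fun n : ℕ => (n : ZMod m)) (t := univ) (fun _ _ => mem_univ _)]
  apply sum_congr rfl
  intro r _
  unfold S
  congr 1
  ext n
  simp only [mem_filter, mem_range]
  tauto

theorem min_aux (a b x y : ℝ) (hx : 0 ≤ x) (hy : 0 ≤ y) : min (a + x) (b + y) ≤ min a b + (x + y) := by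
  rcases le_total a b with h | h
  · rw [min_eq_left h]
    exact (min_le_left _ _).trans (by linarith)
  · rw [min_eq_right h]
    exact (min_le_right _ _).trans (by linarith)

/-- the local bound at modulus `m` -/
noncomputable def loc (m : ℕ) [NeZero m] : ℝ :=
  ∑ r : ZMod m, min (1 / (m:ℝ)) (Real.Gamma (4/3) ^ 3 / 6 * (U (ZMod m) r : ℝ) / (m:ℝ)^3)

theorem cnt_le (N m K : ℕ) [NeZero m] (hK : N < K^3) :
    (cnt N : ℝ) ≤ loc m * N +
      (∑ r : ZMod m, (2 + (U (ZMod m) r : ℝ) * (Real.Gamma (4/3) ^ 3 + 3) / 6)) * (K:ℝ)^2 := by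
  have hG : 0 < Real.Gamma (4/3) := Real.Gamma_pos_of_pos (by norm_num)
  have hK1 : 1 ≤ K := by
    rcases Nat.eq_zero_or_pos K with h | h
    · subst h; simp at hK
    · exact h
  have hK1' : (1:ℝ) ≤ (K:ℝ)^2 := by
    have : (1:ℝ) ≤ K := by exact_mod_cast hK1
    nlinarith
  rw [cnt_eq N m, loc, sum_mul, sum_mul, ← sum_add_distrib]
  push_cast
  apply sum_le_sum
  intro r _
  have h1 : ((S N m r).card : ℝ) ≤ (N:ℝ) / m + 1 := by
    have := S_card_le N m r
    have h2 : ((S N m r).card : ℝ) ≤ ((N / m : ℕ) : ℝ) + 1 := by exact_mod_cast this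
    have h3 := @Nat.cast_div_le ℝ _ _ _ N m
    linarith
  have h2 := S_card_bd N m K hK r
  set u : ℝ := (U (ZMod m) r : ℝ) with hu
  set V : ℝ := Real.Gamma (4/3) ^ 3 with hV
  have hV0 : 0 < V := by positivity
  have hu0 : 0 ≤ u := by positivity
  have h3 : ((S N m r).card : ℝ) ≤ min ((N:ℝ) / m + 1) (V / 6 * u / (m:ℝ)^3 * N +
      (u * V / 6 + u * (3 * (K:ℝ)^2) / 6 + (K:ℝ)^2)) := by
    apply le_min h1
    refine h2.trans (le_of_eq ?_)
    ring
  refine h3.trans ((min_aux _ _ _ _ (by norm_num) (by positivity)).trans ?_)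
  have h4 : min ((N:ℝ) / m) (V / 6 * u / (m:ℝ)^3 * N) =
      min (1 / (m:ℝ)) (V / 6 * u / (m:ℝ)^3) * N := by
    rw [min_mul_of_nonneg _ _ (by positivity : (0:ℝ) ≤ N)]
    congr 1
    ring
  rw [h4]
  have h5 : u * V / 6 ≤ u * V / 6 * (K:ℝ)^2 := le_mul_of_one_le_right (by positivity) hK1'
  nlinarith

theorem eventually_le (m : ℕ) [NeZero m] (x : ℝ) (hx : loc m < x) :
    ∀ᶠ N : ℕ in Filter.atTop, (cnt N : ℝ) ≤ x * N := by
  set C : ℝ := ∑ r : ZMod m, (2 + (U (ZMod m) r : ℝ) * (Real.Gamma (4/3) ^ 3 + 3) / 6) with hC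
  have hG : 0 < Real.Gamma (4/3) := Real.Gamma_pos_of_pos (by norm_num)
  have hC0 : 0 ≤ C := by positivity
  set d := x - loc m with hd
  have hd0 : 0 < d := by linarith
  -- choose `T` with `8 C ≤ d T`... then `K = ⌊N^(1/3)⌋ + 1`
  have key : ∀ᶠ K : ℕ in Filter.atTop, 8 * (C * 4) ≤ d * K := by
    filter_upwards [Filter.eventually_ge_atTop ⌈8 * (C * 4) / d⌉₊] with K hK
    have := Nat.le_of_ceil_le hK
    rw [div_le_iff₀ hd0] at this
    linarith
  obtain ⟨K0, hK0⟩ := Filter.eventually_atTop.1 key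
  filter_upwards [Filter.eventually_ge_atTop ((K0+2)^3)] with N hN
  -- the cube root of `N`
  have hex : ∃ k : ℕ, k^3 ≤ N ∧ N < (k+1)^3 := by
    have : ∃ n : ℕ, N < (n+1)^3 := ⟨N, by
      have := le_cube (N+1)
      omega⟩
    classical
    refine ⟨Nat.find this, ?_, Nat.find_spec this⟩
    rcases Nat.eq_zero_or_pos (Nat.find this) with h | h
    · rw [h]; simp
    · have := Nat.find_min this (m := Nat.find this - 1) (by omega)
      rw [Nat.sub_add_cancel h] at this
      omega
  obtain ⟨k, hk1, hk2⟩ := hex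
  have hkK : K0 + 1 ≤ k := by
    by_contra hc
    have : (k+1)^3 ≤ (K0+2)^3 := Nat.pow_le_pow_left (by omega) 3
    omega
  have h1 := cnt_le N m (k+1) hk2
  have h2 := hK0 k (by omega)
  have hk0 : (1:ℝ) ≤ k := by
    have : 1 ≤ k := by omega
    exact_mod_cast this
  have h3 : (k:ℝ)^3 ≤ N := by exact_mod_cast hk1
  have h4 : C * ((k+1 : ℕ):ℝ)^2 ≤ d * N := by
    push_cast
    have h5 : ((k:ℝ)+1)^2 ≤ 4 * (k:ℝ)^2 := by nlinarith
    calc C * ((k:ℝ)+1)^2 ≤ C * (4 * (k:ℝ)^2) := by gcongr
      _ = (C * 4) * (k:ℝ)^2 := by ring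
      _ ≤ (d * k) * (k:ℝ)^2 := by
          have : C * 4 ≤ d * k := by nlinarith
          gcongr
      _ = d * (k:ℝ)^3 := by ring
      _ ≤ d * N := by gcongr
  have h6 : x * (N:ℝ) = loc m * N + d * N := by rw [hd]; ring
  rw [h6]
  linarith

end Pool.Agent.SumCubes
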