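import Mathlib
import Pool.Agent.SumCubes.Count

namespace Pool.Agent.SumCubes

open Finset

section
variable (p : ℕ) [hp : Fact p.Prime]

/-- cubic exponential sum -/
noncomputable def eS (t : ZMod p) : ℂ := ∑ a : ZMod p, ZMod.stdAddChar (t * a^3)

/-- number of cube roots -/
def nu (s : ZMod p) : ℕ := (univ.filter (fun a : ZMod p => a^3 = s)).card

/-- number of representations as a sum of two cubes -/
def nm (s : ZMod p) : ℕ := (univ.filter (fun u : ZMod p × ZMod p => u.1^3 + u.2^3 = s)).card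

theorem gen {ι : Type} [Fintype ι] (f : ι → ZMod p) (s : ZMod p) :
    ∑ t : ZMod p, (∑ i, ZMod.stdAddChar (t * f i)) * (ZMod.stdAddChar (-(t * s)) : ℂ) =
      p * (univ.filter (fun i => f i = s)).card := by
  classical
  have h1 : ∀ t : ZMod p, (∑ i, ZMod.stdAddChar (t * f i)) * (ZMod.stdAddChar (-(t * s)) : ℂ) =
      ∑ i, ZMod.stdAddChar (t * (f i - s)) := by
    intro t
    rw [sum_mul]
    apply sum_congr rfl
    intro i _
    rw [← AddChar.map_add_eq_mul]
    congr 1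
    ring
  simp only [h1]
  rw [sum_comm]
  have h2 : ∀ i, ∑ t : ZMod p, (ZMod.stdAddChar (t * (f i - s)) : ℂ) = if f i = s then (p:ℂ) else 0 := by
    intro i
    rw [AddChar.sum_mulShift _ (ZMod.isPrimitive_stdAddChar p)]
    simp [sub_eq_zero, ZMod.card]
  simp only [h2]
  rw [← sum_filter, sum_const, nsmul_eq_mul, mul_comm]

theorem eS_inv (t l : ZMod p) (hl : l ≠ 0) : eS p (t * l^3) = eS p t := by
  unfold eS
  apply Fintype.sum_equiv (Equiv.mulLeft₀ l hl)
  intro a
  show (ZMod.stdAddChar (t * l^3 * a^3) : ℂ) = ZMod.stdAddChar (t * (l * a)^3)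
  congr 1
  ring

theorem mul_gen {ι κ : Type} [Fintype ι] [Fintype κ] (f : ι → ZMod p) (g : κ → ZMod p) (t : ZMod p) :
    (∑ i, (ZMod.stdAddChar (t * f i) : ℂ)) * (∑ j, ZMod.stdAddChar (t * g j)) =
      ∑ u : ι × κ, ZMod.stdAddChar (t * (f u.1 + g u.2)) := by
  rw [sum_mul_sum, Fintype.sum_prod_type]
  apply sum_congr rfl
  intro a _
  apply sum_congr rfl
  intro b _
  rw [← AddChar.map_add_eq_mul]
  congr 1
  ring

theorem eS_sq (t : ZMod p) :
    eS p t ^ 2 = ∑ u : ZMod p × ZMod p, ZMod.stdAddChar (t * (u.1^3 + u.2^3)) := by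
  rw [sq]
  exact mul_gen p (fun a => a^3) (fun a => a^3) t

theorem eS_cu (t : ZMod p) :
    eS p t ^ 3 = ∑ u : ZMod p × ZMod p × ZMod p, ZMod.stdAddChar (t * (u.1^3 + u.2.1^3 + u.2.2^3)) := by
  have h : eS p t ^ 3 = eS p t * eS p t ^ 2 := by ring
  rw [h, eS_sq]
  have := mul_gen p (fun a => a^3) (fun u : ZMod p × ZMod p => u.1^3 + u.2^3) t
  rw [eS, this]
  simp only [add_assoc]

theorem eS_fo (t : ZMod p) :
    eS p t ^ 4 = ∑ u : (ZMod p × ZMod p) × (ZMod p × ZMod p),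
      ZMod.stdAddChar (t * ((u.1.1^3 + u.1.2^3) + (u.2.1^3 + u.2.2^3))) := by
  have h : eS p t ^ 4 = eS p t ^ 2 * eS p t ^ 2 := by ring
  rw [h, eS_sq]
  exact mul_gen p (fun u : ZMod p × ZMod p => u.1^3 + u.2^3) (fun u : ZMod p × ZMod p => u.1^3 + u.2^3) t

theorem eS_real (t : ZMod p) : ((eS p t).re : ℂ) = eS p t := by
  have h1 : (starRingEnd ℂ) (eS p t) = eS p (-t) := by
    unfold eS
    rw [map_sum]
    apply sum_congr rfl
    intro a _
    rw [← AddChar.map_neg_eq_conj]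
    congr 1
    ring
  have h2 : eS p (-t) = eS p t := by
    have := eS_inv p t (-1) (by simp)
    rw [← this]
    congr 1
    ring
  exact Complex.conj_eq_iff_re.1 (h1.trans h2)

/-- real version -/
noncomputable def rS (t : ZMod p) : ℝ := (eS p t).re

theorem rS_inv (t l : ZMod p) (hl : l ≠ 0) : rS p (t * l^3) = rS p t := by
  unfold rS; rw [eS_inv p t l hl]

theorem rS_zero : rS p 0 = p := by
  unfold rS eS
  simp [ZMod.card]

theorem nu_four (s : ZMod p) :
    ∑ t : ZMod p, ((rS p t : ℝ) : ℂ) * (ZMod.stdAddChar (-(t * s)) : ℂ) = p * nu p s := by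
  have := gen p (fun a : ZMod p => a^3) s
  unfold nu
  rw [← this]
  apply sum_congr rfl
  intro t _
  rw [rS, eS_real]
  rfl

theorem nm_four (s : ZMod p) :
    ∑ t : ZMod p, (((rS p t)^2 : ℝ) : ℂ) * (ZMod.stdAddChar (-(t * s)) : ℂ) = p * nm p s := by
  have := gen p (fun u : ZMod p × ZMod p => u.1^3 + u.2^3) s
  unfold nm
  rw [← this]
  apply sum_congr rfl
  intro t _
  rw [Complex.ofReal_pow, rS, eS_real, eS_sq]

theorem U_four (s : ZMod p) :
    ∑ t : ZMod p, (((rS p t)^3 : ℝ) : ℂ) * (ZMod.stdAddChar (-(t * s)) : ℂ) = p * U (ZMod p) s := by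
  have := gen p (fun u : ZMod p × ZMod p × ZMod p => u.1^3 + u.2.1^3 + u.2.2^3) s
  unfold U
  rw [← this]
  apply sum_congr rfl
  intro t _
  rw [Complex.ofReal_pow, rS, eS_real, eS_cu]

theorem fo_four :
    ∑ t : ZMod p, (rS p t)^4 = p * ∑ h : ZMod p, (nm p h : ℝ)^2 := by
  have h0 := gen p (fun u : (ZMod p × ZMod p) × (ZMod p × ZMod p) =>
    (u.1.1^3 + u.1.2^3) + (u.2.1^3 + u.2.2^3)) 0
  have h1 : (∑ t : ZMod p, (((rS p t)^4 : ℝ) : ℂ)) = p * ∑ h : ZMod p, (nm p h : ℂ)^2 := by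
    have h2 : (univ.filter (fun u : (ZMod p × ZMod p) × (ZMod p × ZMod p) =>
        (u.1.1^3 + u.1.2^3) + (u.2.1^3 + u.2.2^3) = 0)).card = ∑ h : ZMod p, (nm p h)^2 := by
      rw [card_eq_sum_card_fiberwise (f := fun u : (ZMod p × ZMod p) × (ZMod p × ZMod p) =>
        u.1.1^3 + u.1.2^3) (t := univ) (fun _ _ => mem_univ _)]
      apply sum_congr rfl
      intro h _
      rw [sq, nm, ← card_product]
      refine card_bij' (fun u _ => (u.1, (-u.2.1, -u.2.2))) (fun u _ => (u.1, (-u.2.1, -u.2.2))) ?_ ?_ ?_ ?_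
      · intro u hu
        simp only [mem_filter, mem_univ, true_and] at hu
        simp only [mem_product, mem_filter, mem_univ, true_and]
        refine ⟨hu.2, ?_⟩
        linear_combination hu.2 - hu.1
      · intro u hu
        simp only [mem_product, mem_filter, mem_univ, true_and] at hu
        simp only [mem_filter, mem_univ, true_and]
        refine ⟨?_, hu.1⟩
        linear_combination hu.1 - hu.2
      · intro u _; simp
      · intro u _; simp
    have h3 : ((∑ h : ZMod p, (nm p h)^2 : ℕ) : ℂ) = ∑ h : ZMod p, (nm p h : ℂ)^2 := by push_cast; rfl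
    rw [← h3, ← h2, ← h0]
    apply sum_congr rfl
    intro t _
    rw [Complex.ofReal_pow, rS, eS_real, eS_fo]
    simp
  exact_mod_cast h1

theorem nm_inv (h l : ZMod p) (hl : l ≠ 0) : nm p (h * l^3) = nm p h := by
  unfold nm
  refine card_bij' (fun u _ => (u.1 * l⁻¹, u.2 * l⁻¹)) (fun u _ => (u.1 * l, u.2 * l)) ?_ ?_ ?_ ?_
  · intro u hu
    simp only [mem_filter, mem_univ, true_and] at hu ⊢
    rw [mul_pow, mul_pow, ← add_mul, hu]
    field_simp
  · intro u hu
    simp only [mem_filter, mem_univ, true_and] at hu ⊢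
    rw [mul_pow, mul_pow, ← add_mul, hu]
  · intro u _
    simp [mul_assoc, inv_mul_cancel₀ hl]
  · intro u _
    simp [mul_assoc, mul_inv_cancel₀ hl]

/-- a generator of the multiplicative group -/
theorem exists_gen : ∃ g : ZMod p, g ≠ 0 ∧ (∀ u : ZMod p, u ≠ 0 → ∃ n : ℕ, u = g^n) ∧
    (p % 3 = 1 → ∃ w : ZMod p, IsPrimitiveRoot w 3) := by
  obtain ⟨g, hg⟩ := IsCyclic.exists_generator (α := (ZMod p)ˣ)
  refine ⟨g, g.ne_zero, ?_, ?_⟩
  · intro u hu
    obtain ⟨n, hn⟩ := (mem_powers_iff_mem_zpowers (x := g) (y := Units.mk0 u hu)).2 (hg _)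
    refine ⟨n, ?_⟩
    have := congrArg Units.val hn
    simpa using this.symm
  · intro h3
    have hord : orderOf g = p - 1 := by
      rw [orderOf_eq_card_of_forall_mem_zpowers hg, Nat.card_eq_fintype_card, ZMod.card_units_eq_totient,
        Nat.totient_prime hp.out]
    have hprim : IsPrimitiveRoot g (p - 1) := by rw [← hord]; exact IsPrimitiveRoot.orderOf g
    have hprim' : IsPrimitiveRoot (g : ZMod p) (p - 1) := hprim.map_of_injective (f := Units.coeHom (ZMod p)) Units.val_injective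
    have h1 : 1 < p := hp.out.one_lt
    refine ⟨(g : ZMod p)^((p-1)/3), hprim'.pow (by omega) ?_⟩
    omega

theorem gen_const (g : ZMod p) (hg : ∀ u : ZMod p, u ≠ 0 → ∃ n : ℕ, u = g^n) (G : ZMod p → ℝ)
    (hG : ∀ t, G (t * g) = G t) (u : ZMod p) (hu : u ≠ 0) : G u = G 1 := by
  obtain ⟨n, rfl⟩ := hg u hu
  clear hu
  induction n with
  | zero => simp
  | succ n ih => rw [pow_succ, hG, ih]

theorem sum_ne (F : ZMod p → ℝ) : ∑ u ∈ univ.erase (0 : ZMod p), F u = (∑ u, F u) - F 0 := by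
  rw [← add_sum_erase univ F (mem_univ 0)]
  ring

theorem sum_shift (g : ZMod p) (hg0 : g ≠ 0) (F : ZMod p → ℝ) :
    ∑ u : ZMod p, F (u * g) = ∑ u : ZMod p, F u := by
  apply Fintype.sum_equiv (Equiv.mulRight₀ g hg0)
  intro a
  rfl

/-- the sum over the three classes -/
theorem class_sum (g : ZMod p) (hg0 : g ≠ 0) (hg : ∀ u : ZMod p, u ≠ 0 → ∃ n : ℕ, u = g^n)
    (F : ZMod p → ℝ) (hF : ∀ t l : ZMod p, l ≠ 0 → F (t * l^3) = F t) (t : ZMod p) (ht : t ≠ 0) :
    ((p:ℝ) - 1) * (F t + F (t * g) + F (t * g^2)) = 3 * ((∑ u, F u) - F 0) := by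
  set G : ZMod p → ℝ := fun t => F t + F (t * g) + F (t * g^2) with hGd
  have hG : ∀ t, G (t * g) = G t := by
    intro t
    simp only [hGd]
    have h1 : t * g * g^2 = t * g^3 := by ring
    have h2 : t * g * g = t * g^2 := by ring
    rw [h1, h2, hF t g hg0]
    ring
  have hc := gen_const p g hg G hG
  have h1 : ∑ u ∈ univ.erase (0 : ZMod p), G u = ((p:ℝ) - 1) * G t := by
    rw [sum_congr rfl (fun u hu => (hc u (ne_of_mem_erase hu)).trans (hc t ht).symm), sum_const,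
      card_erase_of_mem (mem_univ _), card_univ, ZMod.card, nsmul_eq_mul, Nat.cast_sub hp.out.one_lt.le]
    simp
  rw [← h1, sum_ne]
  simp only [hGd, sum_add_distrib]
  rw [sum_shift p g hg0 F]
  have : ∑ u : ZMod p, F (u * g^2) = ∑ u, F u := sum_shift p (g^2) (pow_ne_zero 2 hg0) F
  rw [this]
  simp only [zero_mul]
  ring

end

end Pool.Agent.SumCubes
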