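import Mathlib
import Pool.Agent.SumCubes.Char

namespace Pool.Agent.SumCubes

open Finset

section
variable (p : ℕ) [hp : Fact p.Prime]

theorem nu_sum : ∑ s : ZMod p, nu p s = p := by
  have h := card_eq_sum_card_fiberwise (f := fun a : ZMod p => a^3) (s := univ) (t := univ)
    (fun _ _ => mem_univ _)
  rw [card_univ, ZMod.card] at h
  exact h.symm

theorem nm_sum : ∑ s : ZMod p, nm p s = p^2 := by
  have h := card_eq_sum_card_fiberwise (f := fun u : ZMod p × ZMod p => u.1^3 + u.2^3) (s := univ)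
    (t := univ) (fun _ _ => mem_univ _)
  rw [card_univ, Fintype.card_prod, ZMod.card] at h
  unfold nm
  rw [← h, sq]

theorem nu_le (s : ZMod p) : nu p s ≤ 3 := by
  classical
  have h1 : (univ.filter (fun a : ZMod p => a^3 = s)) ⊆ (Polynomial.nthRoots 3 s).toFinset := by
    intro a ha
    simp only [mem_filter, mem_univ, true_and] at ha
    rw [Multiset.mem_toFinset, Polynomial.mem_nthRoots (by norm_num)]
    exact ha
  calc nu p s ≤ (Polynomial.nthRoots 3 s).toFinset.card := card_le_card h1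
    _ ≤ Multiset.card (Polynomial.nthRoots 3 s) := Multiset.toFinset_card_le _
    _ ≤ 3 := Polynomial.card_nthRoots 3 s

theorem nu_inv (s l : ZMod p) (hl : l ≠ 0) : nu p (s * l^3) = nu p s := by
  unfold nu
  refine card_bij' (fun u _ => u * l⁻¹) (fun u _ => u * l) ?_ ?_ ?_ ?_
  · intro u hu
    simp only [mem_filter, mem_univ, true_and] at hu ⊢
    rw [mul_pow, hu]
    field_simp
  · intro u hu
    simp only [mem_filter, mem_univ, true_and] at hu ⊢
    rw [mul_pow, hu]
  · intro u _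
    simp [mul_assoc, inv_mul_cancel₀ hl]
  · intro u _
    simp [mul_assoc, mul_inv_cancel₀ hl]

theorem nu_zero : nu p 0 = 1 := by
  unfold nu
  rw [card_eq_one]
  refine ⟨0, ?_⟩
  ext a
  simp

theorem nu_one (h3 : p % 3 = 1) : nu p 1 = 3 := by
  apply le_antisymm (nu_le p 1)
  obtain ⟨g, _, _, h⟩ := exists_gen p
  obtain ⟨w, hw⟩ := h h3
  have h1 : ({1, w, w^2} : Finset (ZMod p)) ⊆ univ.filter (fun a : ZMod p => a^3 = 1) := by
    intro a ha
    simp only [mem_insert, mem_singleton] at ha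
    simp only [mem_filter, mem_univ, true_and]
    have := hw.pow_eq_one
    rcases ha with rfl | rfl | rfl
    · simp
    · exact this
    · rw [← pow_mul, mul_comm, pow_mul, this, one_pow]
  have h2 : ({1, w, w^2} : Finset (ZMod p)).card = 3 := by
    have n1 : w ≠ 1 := hw.ne_one (by norm_num)
    have n2 : w^2 ≠ 1 := hw.pow_ne_one_of_pos_of_lt (by norm_num) (by norm_num)
    have n0 : w ≠ 0 := hw.ne_zero (by norm_num)
    have n3 : w ≠ w^2 := by
      intro h
      apply n1
      have : w * 1 = w * w := by rw [mul_one, ← sq]; exact h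
      exact (mul_left_cancel₀ n0 this).symm
    rw [card_insert_of_notMem, card_insert_of_notMem, card_singleton]
    · simp only [mem_singleton]; exact n3
    · simp only [mem_insert, mem_singleton, not_or]
      exact ⟨n1.symm, n2.symm⟩
  rw [← h2]
  exact card_le_card h1

theorem nm_zero (h3 : p % 3 = 1) : nm p 0 + 2 = 3 * p := by
  have h1 : nm p 0 = ∑ b : ZMod p, nu p (-b^3) := by
    unfold nm
    rw [card_eq_sum_card_fiberwise (f := fun u : ZMod p × ZMod p => u.2) (t := univ)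
      (fun _ _ => mem_univ _)]
    apply sum_congr rfl
    intro b _
    unfold nu
    refine card_bij' (fun u _ => u.1) (fun a _ => (a, b)) ?_ ?_ ?_ ?_
    · intro u hu
      simp only [mem_filter, mem_univ, true_and] at hu ⊢
      rw [← hu.2]
      linear_combination hu.1
    · intro u hu
      simp only [mem_filter, mem_univ, true_and] at hu ⊢
      refine ⟨?_, trivial⟩
      linear_combination hu
    · intro u hu
      simp only [mem_filter, mem_univ, true_and] at hu
      exact Prod.ext rfl hu.2.symm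
    · intro u _
      rfl
  rw [h1, ← add_sum_erase univ _ (mem_univ (0 : ZMod p))]
  have h2 : ∀ b ∈ univ.erase (0 : ZMod p), nu p (-b^3) = 3 := by
    intro b hb
    have hb0 : -b ≠ 0 := neg_ne_zero.2 (ne_of_mem_erase hb)
    have : -b^3 = 1 * (-b)^3 := by ring
    rw [this, nu_inv p 1 (-b) hb0, nu_one p h3]
  rw [sum_congr rfl h2, sum_const, card_erase_of_mem (mem_univ _), card_univ, ZMod.card]
  have hp1 := hp.out.one_lt
  simp only [ne_eq, OfNat.ofNat_ne_zero, not_false_eq_true, zero_pow, neg_zero, nu_zero, smul_eq_mul]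
  omega

theorem rS_sum : ∑ t : ZMod p, rS p t = p := by
  have h := nu_four p 0
  simp only [mul_zero, neg_zero, AddChar.map_zero_eq_one, mul_one, nu_zero, Nat.cast_one] at h
  exact_mod_cast h

theorem rS_sum2 (h3 : p % 3 = 1) : ∑ t : ZMod p, (rS p t)^2 = p * (3 * p - 2) := by
  have h := nm_four p 0
  simp only [mul_zero, neg_zero, AddChar.map_zero_eq_one, mul_one] at h
  have h1 : ∑ t : ZMod p, (rS p t)^2 = p * (nm p 0 : ℝ) := by exact_mod_cast h
  have h2 : ((nm p 0 : ℝ)) + 2 = 3 * p := by exact_mod_cast nm_zero p h3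
  rw [h1]
  have : (nm p 0 : ℝ) = 3 * p - 2 := by linarith
  rw [this]

theorem three_rel (h3 : p % 3 = 1) : ∃ E : ℝ, E^2 ≤ 4 * (p:ℝ)^3 ∧
    (∀ t : ZMod p, t ≠ 0 → (rS p t)^3 = 3 * p * rS p t + E) := by
  obtain ⟨g, hg0, hg, _⟩ := exists_gen p
  have hp1 : (1:ℝ) < p := by exact_mod_cast hp.out.one_lt
  have hp1' : (p:ℝ) - 1 ≠ 0 := by linarith
  set E := rS p 1 * rS p (1 * g) * rS p (1 * g^2) with hE
  have hs1 : ∀ t : ZMod p, t ≠ 0 → rS p t + rS p (t * g) + rS p (t * g^2) = 0 := by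
    intro t ht
    have := class_sum p g hg0 hg (rS p) (fun t l hl => rS_inv p t l hl) t ht
    rw [rS_sum, rS_zero, sub_self, mul_zero] at this
    rcases mul_eq_zero.1 this with h | h
    · exact absurd h hp1'
    · exact h
  have hs2 : ∀ t : ZMod p, t ≠ 0 → (rS p t)^2 + (rS p (t * g))^2 + (rS p (t * g^2))^2 = 6 * p := by
    intro t ht
    have := class_sum p g hg0 hg (fun t => (rS p t)^2) (fun t l hl => by
      simp only [rS_inv p t l hl]) t ht
    rw [rS_sum2 p h3, rS_zero] at this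
    have h2 : ((p:ℝ) - 1) * ((rS p t)^2 + (rS p (t * g))^2 + (rS p (t * g^2))^2) =
        ((p:ℝ) - 1) * (6 * p) := by rw [this]; ring
    exact mul_left_cancel₀ hp1' h2
  have hs3 : ∀ t : ZMod p, t ≠ 0 → rS p t * rS p (t * g) * rS p (t * g^2) = E := by
    intro t ht
    apply gen_const p g hg (fun t => rS p t * rS p (t * g) * rS p (t * g^2)) _ t ht
    intro t
    have h1 : t * g * g^2 = t * g^3 := by ring
    have h2 : t * g * g = t * g^2 := by ring
    show rS p (t * g) * rS p (t * g * g) * rS p (t * g * g^2) = rS p t * rS p (t * g) * rS p (t * g^2)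
    rw [h1, h2, rS_inv p t g hg0]
    ring
  refine ⟨E, ?_, ?_⟩
  · have a1 := hs1 1 one_ne_zero
    have a2 := hs2 1 one_ne_zero
    rw [hE]
    set x := rS p 1
    set y := rS p (1 * g)
    set z := rS p (1 * g^2)
    have hz : z = -x - y := by linarith
    rw [hz] at a2 ⊢
    have h3p : (p:ℝ) = (x^2 + x*y + y^2) / 3 := by nlinarith
    rw [h3p]
    nlinarith [sq_nonneg ((x - y) * (2*x + y) * (x + 2*y))]
  · intro t ht
    have a1 := hs1 t ht
    have a2 := hs2 t ht
    rw [← hs3 t ht]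
    set x := rS p t
    set y := rS p (t * g)
    set z := rS p (t * g^2)
    have hz : z = -x - y := by linarith
    rw [hz] at a2 ⊢
    have h3p : (p:ℝ) = (x^2 + x*y + y^2) / 3 := by nlinarith
    rw [h3p]
    ring

theorem U_formula (E : ℝ)
    (hE : ∀ t : ZMod p, t ≠ 0 → (rS p t)^3 = 3 * p * rS p t + E) (s : ZMod p) (hs : s ≠ 0) :
    (p:ℝ) * U (ZMod p) s = 3 * p^2 * nu p s + p^3 - 3 * p^2 - E := by
  have h1 := U_four p s
  have h2 : ∀ t : ZMod p, (((rS p t)^3 : ℝ) : ℂ) * (ZMod.stdAddChar (-(t * s)) : ℂ) =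
      3 * p * (((rS p t : ℝ) : ℂ) * (ZMod.stdAddChar (-(t * s)) : ℂ)) +
      (E : ℂ) * (ZMod.stdAddChar (t * (-s)) : ℂ) +
      (if t = 0 then ((p:ℂ)^3 - 3 * p^2 - E) else 0) := by
    intro t
    by_cases ht : t = 0
    · subst ht
      rw [rS_zero]
      simp
      ring
    · rw [hE t ht, if_neg ht, add_zero]
      have : t * (-s) = -(t * s) := by ring
      rw [this]
      push_cast
      ring
  rw [sum_congr rfl (fun t _ => h2 t), sum_add_distrib, sum_add_distrib, ← mul_sum, ← mul_sum,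
    nu_four, AddChar.sum_mulShift _ (ZMod.isPrimitive_stdAddChar p)] at h1
  simp only [neg_eq_zero, hs, if_false, Nat.cast_zero, mul_zero, add_zero, sum_ite_eq', mem_univ,
    if_true] at h1
  have h4 : (((3 * p * (p * nu p s) + (p^3 - 3 * p^2 - E) : ℝ)) : ℂ) = ((p * U (ZMod p) s : ℝ) : ℂ) := by
    push_cast
    exact h1
  have h5 : (3 * p * (p * nu p s) + (p^3 - 3 * p^2 - E) : ℝ) = p * U (ZMod p) s := by exact_mod_cast h4
  rw [← h5]
  ring

/-- `U` in terms of the number of cube roots -/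
theorem U_le (h3 : p % 3 = 1) (s : ZMod p) (hs : s ≠ 0) :
    (U (ZMod p) s : ℝ) ≤ p^2 + 3 * p * ((nu p s : ℝ) - 1) + 2 * Real.sqrt p := by
  obtain ⟨E, hE1, hE2⟩ := three_rel p h3
  have h := U_formula p E hE2 s hs
  have hp1 : (1:ℝ) < p := by exact_mod_cast hp.out.one_lt
  have hp0 : (0:ℝ) < p := by linarith
  set q := Real.sqrt p with hq
  have hq2 : q^2 = p := Real.sq_sqrt hp0.le
  have hq0 : 0 ≤ q := Real.sqrt_nonneg _
  have hE3 : -E ≤ 2 * p * q := by
    have : (-E)^2 ≤ (2 * p * q)^2 := by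
      have : (2 * p * q)^2 = 4 * (p:ℝ)^3 := by
        calc (2 * p * q)^2 = 4 * (p:ℝ)^2 * q^2 := by ring
          _ = 4 * (p:ℝ)^3 := by rw [hq2]; ring
      rw [this]
      nlinarith
    exact abs_le_of_sq_le_sq' this (by positivity) |>.2
  have h4 : (p:ℝ) * U (ZMod p) s ≤ p * (p^2 + 3 * p * ((nu p s : ℝ) - 1) + 2 * q) := by
    rw [h]
    nlinarith
  exact le_of_mul_le_mul_left h4 hp0

/-- correlations -/
theorem nm_dev (h3 : p % 3 = 1) (h : ZMod p) (hh : h ≠ 0) : ((nm p h : ℝ) - p)^2 ≤ 6 * p + 12 := by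
  obtain ⟨E, _, hE2⟩ := three_rel p h3
  obtain ⟨g, hg0, hg, _⟩ := exists_gen p
  have hp1 : (1:ℝ) < p := by exact_mod_cast hp.out.one_lt
  have hp1' : (0:ℝ) < (p:ℝ) - 1 := by linarith
  have hp0 : (0:ℝ) < p := by linarith
  have h4 : ∑ t : ZMod p, (rS p t)^4 = p^4 + 6 * p^3 - 6 * p^2 := by
    have e : ∀ t : ZMod p, (rS p t)^4 = 3 * p * (rS p t)^2 + E * rS p t +
        (if t = 0 then ((p:ℝ)^4 - 3 * p^3 - E * p) else 0) := by
      intro t
      by_cases ht : t = 0
      · subst ht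
        rw [rS_zero]
        simp
        ring
      · rw [if_neg ht, add_zero]
        have := hE2 t ht
        calc (rS p t)^4 = (rS p t)^3 * rS p t := by ring
          _ = _ := by rw [this]; ring
    rw [sum_congr rfl (fun t _ => e t), sum_add_distrib, sum_add_distrib, ← mul_sum, ← mul_sum,
      rS_sum, rS_sum2 p h3]
    simp only [sum_ite_eq', mem_univ, if_true]
    ring
  rw [fo_four] at h4
  have h5 : ∑ h : ZMod p, (nm p h : ℝ)^2 = p^3 + 6 * p^2 - 6 * p := by
    have : (p:ℝ) * ∑ h : ZMod p, (nm p h : ℝ)^2 = p * (p^3 + 6 * p^2 - 6 * p) := by rw [h4]; ring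
    exact mul_left_cancel₀ hp0.ne' this
  have h6 : ∑ h : ZMod p, (nm p h : ℝ) = p^2 := by exact_mod_cast nm_sum p
  have h7 : ∑ h : ZMod p, ((nm p h : ℝ) - p)^2 = 6 * p^2 - 6 * p := by
    have e : ∀ h : ZMod p, ((nm p h : ℝ) - p)^2 = (nm p h : ℝ)^2 - 2 * p * (nm p h : ℝ) + p^2 := by
      intro h; ring
    rw [sum_congr rfl (fun h _ => e h), sum_add_distrib, sum_sub_distrib, ← mul_sum, h5, h6,
      sum_const, card_univ, ZMod.card, nsmul_eq_mul]
    ring
  have h8 := class_sum p g hg0 hg (fun h => ((nm p h : ℝ) - p)^2) (fun t l hl => by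
    simp only [nm_inv p t l hl]) h hh
  rw [h7] at h8
  have h9 : (nm p 0 : ℝ) = 3 * p - 2 := by
    have : ((nm p 0 : ℝ)) + 2 = 3 * p := by exact_mod_cast nm_zero p h3
    linarith
  rw [h9] at h8
  have h10 : ((p:ℝ) - 1) * (((nm p h : ℝ) - p)^2 + ((nm p (h*g) : ℝ) - p)^2 +
      ((nm p (h*g^2) : ℝ) - p)^2) = ((p:ℝ) - 1) * (6 * p + 12) := by
    rw [h8]; ring
  have h11 := mul_left_cancel₀ hp1'.ne' h10
  nlinarith [sq_nonneg ((nm p (h*g) : ℝ) - p), sq_nonneg ((nm p (h*g^2) : ℝ) - p)]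

theorem nu_corr (h : ZMod p) : ∑ s : ZMod p, nu p s * nu p (s + h) = nm p h := by
  unfold nm
  rw [card_eq_sum_card_fiberwise (f := fun u : ZMod p × ZMod p => -u.2^3) (t := univ)
    (fun _ _ => mem_univ _)]
  apply sum_congr rfl
  intro s _
  unfold nu
  rw [← card_product]
  symm
  refine card_bij' (fun u _ => (-u.2, u.1)) (fun v _ => (v.2, -v.1)) ?_ ?_ ?_ ?_
  · intro u hu
    simp only [mem_product, mem_filter, mem_univ, true_and] at hu ⊢
    refine ⟨?_, ?_⟩
    · rw [← hu.2]; ring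
    · linear_combination hu.1 + hu.2
  · intro v hv
    simp only [mem_product, mem_filter, mem_univ, true_and] at hv ⊢
    refine ⟨?_, ?_⟩
    · linear_combination hv.2 - hv.1
    · rw [← hv.1]; ring
  · intro u _
    simp
  · intro v _
    simp

end

end Pool.Agent.SumCubes
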