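import Mathlib
import Pool.Agent.SumCubes.Char2

namespace Pool.Agent.SumCubes

open Finset

section
variable (p : ℕ) [hp : Fact p.Prime]

/-- normalised number of cube roots -/
noncomputable def ps (s : ZMod p) : ℝ := (nu p s : ℝ) - 1

theorem ps_sum (x : ZMod p) : ∑ s : ZMod p, ps p (s + x) = 0 := by
  have h1 : ∑ s : ZMod p, ps p (s + x) = ∑ s : ZMod p, ps p s :=
    Fintype.sum_equiv (Equiv.addRight x) _ _ (fun s => rfl)
  rw [h1]
  unfold ps
  rw [sum_sub_distrib]
  have : ∑ s : ZMod p, (nu p s : ℝ) = p := by exact_mod_cast nu_sum p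
  rw [this]
  simp [ZMod.card]

theorem ps_le (s : ZMod p) : ps p s ≤ 2 := by
  have : (nu p s : ℝ) ≤ 3 := by exact_mod_cast nu_le p s
  unfold ps; linarith

theorem le_ps (s : ZMod p) : -1 ≤ ps p s := by
  have : (0:ℝ) ≤ (nu p s : ℝ) := Nat.cast_nonneg _
  unfold ps; linarith

theorem ps_corr (x y : ZMod p) : ∑ s : ZMod p, ps p (s + x) * ps p (s + y) = (nm p (y - x) : ℝ) - p := by
  have h1 : ∑ s : ZMod p, ps p (s + x) * ps p (s + y) =
      ∑ s : ZMod p, ps p s * ps p (s + (y - x)) :=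
    Fintype.sum_equiv (Equiv.addRight x) _ _ (fun s => by
      simp only [Equiv.coe_addRight]
      congr 2
      ring)
  rw [h1]
  have h2 : ∀ s : ZMod p, ps p s * ps p (s + (y - x)) =
      (nu p s : ℝ) * nu p (s + (y - x)) - ps p s - ps p (s + (y - x)) - 1 := by
    intro s; unfold ps; ring
  rw [sum_congr rfl (fun s _ => h2 s), sum_sub_distrib, sum_sub_distrib, sum_sub_distrib, ps_sum]
  have h3 : ∑ s : ZMod p, ps p s = 0 := by
    have := ps_sum p 0
    simpa using this
  have h4 : ∑ s : ZMod p, (nu p s : ℝ) * nu p (s + (y - x)) = nm p (y - x) := by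
    exact_mod_cast nu_corr p (y - x)
  rw [h3, h4]
  simp [ZMod.card]

theorem greedy (h3 : p % 3 = 1) (k : ℕ) (hk : 1 ≤ k) (hpk : 100 * k^2 ≤ p) (w : ℕ → ℝ)
    (hw : ∀ i, 0 ≤ w i) :
    ∃ s : ZMod p, ∑ i ∈ range k, w i * (U (ZMod p) (s + ((i+1 : ℕ) : ZMod p)) : ℝ) ≤
      (p:ℝ)^2 * (1 - 1 / (k * p)) * ∑ i ∈ range k, w i := by
  classical
  set W := ∑ i ∈ range k, w i with hW
  have hW0 : 0 ≤ W := sum_nonneg (fun i _ => hw i)
  have hkR : (1:ℝ) ≤ k := by exact_mod_cast hk
  have hpR : 100 * (k:ℝ)^2 ≤ p := by exact_mod_cast hpk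
  have hp0 : (0:ℝ) < p := by nlinarith
  set q := Real.sqrt p with hq
  have hq2 : q^2 = p := Real.sq_sqrt hp0.le
  have hq0 : 0 ≤ q := Real.sqrt_nonneg _
  have hqk : 10 * (k:ℝ) ≤ q := by
    apply Real.le_sqrt_of_sq_le
    nlinarith
  rcases hW0.eq_or_lt with h0 | hWpos
  · refine ⟨0, ?_⟩
    rw [← h0, mul_zero]
    apply le_of_eq
    apply sum_eq_zero
    intro i hi
    have := (sum_eq_zero_iff_of_nonneg (fun i _ => hw i)).1 h0.symm i hi
    rw [this, zero_mul]
  set Y : ZMod p → ℝ := fun s => ∑ i ∈ range k, w i * ps p (s + ((i+1 : ℕ) : ZMod p)) with hY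
  have hYsum : ∑ s : ZMod p, Y s = 0 := by
    simp only [hY]
    rw [sum_comm]
    apply sum_eq_zero
    intro i _
    rw [← mul_sum, ps_sum, mul_zero]
  have hYle : ∀ s, Y s ≤ 2 * W := by
    intro s
    simp only [hY, hW]
    rw [mul_sum]
    apply sum_le_sum
    intro i _
    have := ps_le p (s + ((i+1 : ℕ) : ZMod p))
    nlinarith [hw i]
  have hYge : ∀ s, -W ≤ Y s := by
    intro s
    simp only [hY, hW]
    rw [← sum_neg_distrib]
    apply sum_le_sum
    intro i _
    have := le_ps p (s + ((i+1 : ℕ) : ZMod p))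
    nlinarith [hw i]
  have hC : ∀ i ∈ range k, ∀ j ∈ range k,
      -3 * q + (if i = j then (2 * (p:ℝ) - 2) else 0) ≤
      ∑ s : ZMod p, ps p (s + ((i+1 : ℕ) : ZMod p)) * ps p (s + ((j+1 : ℕ) : ZMod p)) := by
    intro i hi j hj
    rw [ps_corr]
    by_cases hij : i = j
    · subst hij
      rw [if_pos rfl, sub_self]
      have h9 : (nm p 0 : ℝ) = 3 * p - 2 := by
        have : ((nm p 0 : ℝ)) + 2 = 3 * p := by exact_mod_cast nm_zero p h3
        linarith
      rw [h9]
      linarith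
    · rw [if_neg hij, add_zero]
      have hne : ((j+1 : ℕ) : ZMod p) - ((i+1 : ℕ) : ZMod p) ≠ 0 := by
        intro h
        rw [sub_eq_zero, ZMod.natCast_eq_natCast_iff'] at h
        rw [mem_range] at hi hj
        have hkp : k < p := by nlinarith
        rw [Nat.mod_eq_of_lt (by omega), Nat.mod_eq_of_lt (by omega)] at h
        omega
      have h1 := nm_dev p h3 _ hne
      have h2 : ((nm p (((j+1 : ℕ) : ZMod p) - ((i+1 : ℕ) : ZMod p)) : ℝ) - p)^2 ≤ (3*q)^2 := by
        refine h1.trans ?_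
        have : (3*q)^2 = 9 * p := by rw [mul_pow, hq2]; norm_num
        rw [this]
        nlinarith
      have h3' := (abs_le_of_sq_le_sq' h2 (by positivity)).1
      linarith
  have hY2 : (2 * (p:ℝ) - 2) * W^2 / k - 3 * q * W^2 ≤ ∑ s : ZMod p, (Y s)^2 := by
    have e1 : ∑ s : ZMod p, (Y s)^2 = ∑ i ∈ range k, ∑ j ∈ range k, w i * w j *
        ∑ s : ZMod p, ps p (s + ((i+1 : ℕ) : ZMod p)) * ps p (s + ((j+1 : ℕ) : ZMod p)) := by
      simp only [hY, sq, sum_mul_sum]
      rw [sum_comm]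
      apply sum_congr rfl
      intro i _
      rw [sum_comm]
      apply sum_congr rfl
      intro j _
      rw [mul_sum]
      apply sum_congr rfl
      intro s _
      ring
    have e2 : ∑ i ∈ range k, ∑ j ∈ range k, w i * w j *
        (-3 * q + (if i = j then (2 * (p:ℝ) - 2) else 0)) =
        -3 * q * W^2 + (2 * (p:ℝ) - 2) * ∑ i ∈ range k, (w i)^2 := by
      simp only [mul_add, sum_add_distrib]
      congr 1
      · rw [hW, sq, sum_mul_sum, mul_sum]
        apply sum_congr rfl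
        intro i _
        rw [mul_sum]
        apply sum_congr rfl
        intro j _
        ring
      · rw [mul_sum]
        apply sum_congr rfl
        intro i hi
        rw [sum_eq_single i]
        · rw [if_pos rfl]; ring
        · intro j _ hj
          rw [if_neg (Ne.symm hj), mul_zero]
        · intro h; exact absurd hi h
    have e3 : W^2 ≤ k * ∑ i ∈ range k, (w i)^2 := by
      have := sq_sum_le_card_mul_sum_sq (s := range k) (f := w)
      rw [card_range] at this
      exact this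
    have e4 : W^2 / k ≤ ∑ i ∈ range k, (w i)^2 := by
      rw [div_le_iff₀ (by linarith)]
      linarith
    have e5 : -3 * q * W^2 + (2 * (p:ℝ) - 2) * ∑ i ∈ range k, (w i)^2 ≤ ∑ s : ZMod p, (Y s)^2 := by
      rw [e1, ← e2]
      apply sum_le_sum
      intro i hi
      apply sum_le_sum
      intro j hj
      apply mul_le_mul_of_nonneg_left (hC i hi j hj) (mul_nonneg (hw i) (hw j))
    have e6 : (2 * (p:ℝ) - 2) * (W^2 / k) ≤ (2 * (p:ℝ) - 2) * ∑ i ∈ range k, (w i)^2 := by
      apply mul_le_mul_of_nonneg_left e4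
      nlinarith
    have e7 : (2 * (p:ℝ) - 2) * W^2 / k = (2 * (p:ℝ) - 2) * (W^2 / k) := by ring
    rw [e7]
    linarith
  -- existence of a good class
  have hex : ∃ s : ZMod p, (∀ i ∈ range k, s + ((i+1 : ℕ) : ZMod p) ≠ 0) ∧ Y s < -(W / (2 * k)) := by
    by_contra hcon
    push Not at hcon
    set Z : Finset (ZMod p) := (range k).image (fun i => -((i+1 : ℕ) : ZMod p)) with hZ
    have hZc : (Z.card : ℝ) ≤ k := by
      have : Z.card ≤ k := card_image_le.trans (by rw [card_range])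
      exact_mod_cast this
    have hnot : ∀ s, s ∉ Z → -(W / (2 * k)) ≤ Y s := by
      intro s hs
      apply hcon s
      intro i hi h
      apply hs
      rw [hZ, mem_image]
      exact ⟨i, hi, (eq_neg_of_add_eq_zero_left h).symm⟩
    set δ := W / (2 * k) with hδ
    have hδ0 : 0 ≤ δ := by positivity
    have hδW : δ ≤ W := by
      rw [hδ, div_le_iff₀ (by positivity)]
      nlinarith
    have hpt : ∀ s, (Y s)^2 ≤ (2 * W - δ) * Y s + 2 * W * δ + (if s ∈ Z then 6 * W^2 else 0) := by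
      intro s
      by_cases hs : s ∈ Z
      · rw [if_pos hs]
        have h1 := hYle s
        have h2 := hYge s
        have h3 : (Y s)^2 ≤ (2*W)^2 := by
          apply sq_le_sq'
          · linarith
          · exact h1
        have h4 : (2 * W - δ) * (-W) ≤ (2 * W - δ) * Y s :=
          mul_le_mul_of_nonneg_left h2 (by linarith)
        nlinarith
      · rw [if_neg hs, add_zero]
        have h1 := hYle s
        have h2 := hnot s hs
        nlinarith [mul_nonneg (by linarith : 0 ≤ Y s + δ) (by linarith : 0 ≤ 2 * W - Y s)]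
    have hsum : ∑ s : ZMod p, (Y s)^2 ≤ 2 * W * δ * p + 6 * W^2 * k := by
      calc ∑ s : ZMod p, (Y s)^2 ≤ ∑ s : ZMod p, ((2 * W - δ) * Y s + 2 * W * δ +
            (if s ∈ Z then 6 * W^2 else 0)) := sum_le_sum (fun s _ => hpt s)
        _ = (2 * W - δ) * 0 + p * (2 * W * δ) + Z.card * (6 * W^2) := by
            have hf : univ.filter (fun s => s ∈ Z) = Z := by ext s; simp
            rw [sum_add_distrib, sum_add_distrib, ← mul_sum, hYsum, sum_const, card_univ, ZMod.card,
              nsmul_eq_mul, ← sum_filter, sum_const, nsmul_eq_mul, hf]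
        _ ≤ _ := by nlinarith [sq_nonneg W]
    have hcomb := hY2.trans hsum
    have e : 2 * W * δ * p = W^2 * (p / k) := by
      rw [hδ]; field_simp
    rw [e] at hcomb
    have hW2 : 0 < W^2 := by positivity
    have h5 : W^2 * ((2 * (p:ℝ) - 2) / k - 3 * q) ≤ W^2 * (p / k + 6 * k) := by
      calc _ = (2 * (p:ℝ) - 2) * W^2 / k - 3 * q * W^2 := by ring
        _ ≤ _ := hcomb
        _ = _ := by ring
    have h6 := le_of_mul_le_mul_left h5 hW2
    have hk0 : (0:ℝ) < k := by linarith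
    have h7 : (2 * (p:ℝ) - 2) - 3 * q * k ≤ p + 6 * k^2 := by
      have := mul_le_mul_of_nonneg_right h6 hk0.le
      have e1 : ((2 * (p:ℝ) - 2) / k - 3 * q) * k = (2 * (p:ℝ) - 2) - 3 * q * k := by field_simp
      have e2 : (p / k + 6 * k) * (k:ℝ) = p + 6 * k^2 := by field_simp
      rw [e1, e2] at this
      exact this
    nlinarith
  obtain ⟨s, hs1, hs2⟩ := hex
  refine ⟨s, ?_⟩
  have hk0 : (0:ℝ) < k := by linarith
  have h1 : ∑ i ∈ range k, w i * (U (ZMod p) (s + ((i+1 : ℕ) : ZMod p)) : ℝ) ≤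
      p^2 * W + 3 * p * Y s + 2 * q * W := by
    have e : p^2 * W + 3 * p * Y s + 2 * q * W = ∑ i ∈ range k, w i *
        (p^2 + 3 * p * ((nu p (s + ((i+1 : ℕ) : ZMod p)) : ℝ) - 1) + 2 * q) := by
      simp only [hY, hW, mul_sum, ← sum_add_distrib]
      apply sum_congr rfl
      intro i _
      unfold ps
      ring
    rw [e]
    apply sum_le_sum
    intro i hi
    exact mul_le_mul_of_nonneg_left (U_le p h3 _ (hs1 i hi)) (hw i)
  refine h1.trans ?_
  have h2 : 3 * p * Y s ≤ 3 * p * (-(W / (2 * k))) :=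
    mul_le_mul_of_nonneg_left hs2.le (by positivity)
  have h4 : 2 * q ≤ p / (2 * k) := by
    rw [le_div_iff₀ (by positivity)]
    nlinarith
  have h5 : 2 * q * W ≤ p / (2 * k) * W := mul_le_mul_of_nonneg_right h4 hWpos.le
  have e : (p:ℝ)^2 * (1 - 1 / (k * p)) * W = p^2 * W + 3 * p * (-(W / (2 * k))) + p / (2 * k) * W := by
    field_simp
    ring
  rw [e]
  linarith

end

theorem U_crt (m n : ℕ) [NeZero m] [NeZero n] [NeZero (m * n)] (h : Nat.Coprime m n) (a : ℕ) :
    U (ZMod (m * n)) (a : ZMod (m * n)) = U (ZMod m) (a : ZMod m) * U (ZMod n) (a : ZMod n) := by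
  classical
  set e := ZMod.chineseRemainder h
  have he : e (a : ZMod (m * n)) = ((a : ZMod m), (a : ZMod n)) := by
    rw [map_natCast]; rfl
  have key : ∀ x, U (ZMod (m*n)) x = U (ZMod m) (e x).1 * U (ZMod n) (e x).2 := by
    intro x
    unfold U
    rw [← card_product]
    refine Finset.card_bij' (fun u _ => (((e u.1).1, (e u.2.1).1, (e u.2.2).1),
        ((e u.1).2, (e u.2.1).2, (e u.2.2).2)))
      (fun v _ => (e.symm (v.1.1, v.2.1), e.symm (v.1.2.1, v.2.2.1), e.symm (v.1.2.2, v.2.2.2)))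
      ?_ ?_ ?_ ?_
    · intro u hu
      simp only [mem_filter, mem_univ, true_and] at hu
      simp only [mem_product, mem_filter, mem_univ, true_and]
      rw [← hu]
      simp [Prod.fst_add, Prod.snd_add]
    · intro v hv
      simp only [mem_product, mem_filter, mem_univ, true_and] at hv
      simp only [mem_filter, mem_univ, true_and]
      apply e.injective
      simp only [map_add, map_pow, RingEquiv.apply_symm_apply]
      apply Prod.ext
      · simpa using hv.1
      · simpa using hv.2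
    · intro u _
      simp
    · intro v _
      simp
  rw [key, he]

theorem build (k : ℕ) (hk : 1 ≤ k) (P : Finset ℕ)
    (hP : ∀ p ∈ P, p.Prime ∧ p % 3 = 1 ∧ 100 * k^2 ≤ p) :
    ∃ (m : ℕ) (_ : NeZero m) (r : ℕ), (∀ p : ℕ, p.Prime → p ∉ P → Nat.Coprime m p) ∧
      (∑ i ∈ range k, (U (ZMod m) ((r + (i+1) : ℕ) : ZMod m) : ℝ)) ≤
        (m:ℝ)^2 * (k * ∏ p ∈ P, (1 - 1 / ((k:ℝ) * p))) := by
  classical
  induction P using Finset.induction_on with
  | empty =>
    refine ⟨1, ⟨one_ne_zero⟩, 0, fun p _ _ => Nat.coprime_one_left p, ?_⟩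
    have : ∀ r : ZMod 1, U (ZMod 1) r = 1 := by decide
    simp [this]
  | insert p P hpP ih =>
    obtain ⟨m, hm, r, hco, hr⟩ := ih (fun q hq => hP q (mem_insert_of_mem hq))
    obtain ⟨hp, h3, hpk⟩ := hP p (mem_insert_self p P)
    haveI : Fact p.Prime := ⟨hp⟩
    have hcop : Nat.Coprime m p := hco p hp hpP
    obtain ⟨s, hs⟩ := greedy p h3 k hk hpk
      (fun i => (U (ZMod m) ((r + (i+1) : ℕ) : ZMod m) : ℝ)) (fun i => Nat.cast_nonneg _)
    obtain ⟨r', hr1, hr2⟩ := Nat.chineseRemainder hcop r s.val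
    haveI hnz : NeZero (m * p) := ⟨Nat.mul_ne_zero (NeZero.ne m) hp.ne_zero⟩
    refine ⟨m * p, hnz, r', ?_, ?_⟩
    · intro l hl hlP
      rw [mem_insert, not_or] at hlP
      apply Nat.Coprime.mul_left (hco l hl hlP.2)
      exact (Nat.coprime_primes hp hl).2 (Ne.symm hlP.1)
    · have e1 : ∀ i, (U (ZMod (m * p)) ((r' + (i+1) : ℕ) : ZMod (m * p)) : ℝ) =
          (U (ZMod m) ((r + (i+1) : ℕ) : ZMod m) : ℝ) * (U (ZMod p) (s + ((i+1 : ℕ) : ZMod p)) : ℝ) := by
        intro i
        rw [U_crt m p hcop]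
        have a1 : ((r' + (i+1) : ℕ) : ZMod m) = ((r + (i+1) : ℕ) : ZMod m) := by
          rw [ZMod.natCast_eq_natCast_iff]
          exact Nat.ModEq.add_right _ hr1
        have a2 : ((r' + (i+1) : ℕ) : ZMod p) = s + ((i+1 : ℕ) : ZMod p) := by
          rw [Nat.cast_add]
          congr 1
          have : (r' : ZMod p) = (s.val : ZMod p) := (ZMod.natCast_eq_natCast_iff _ _ _).2 hr2
          rw [this, ZMod.natCast_zmod_val]
        rw [a1, a2]
        push_cast
        rfl
      rw [sum_congr rfl (fun i _ => e1 i), prod_insert hpP]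
      refine hs.trans ?_
      have hp0 : (0:ℝ) < p := by exact_mod_cast hp.pos
      have hp1 : (1:ℝ) ≤ p := by exact_mod_cast hp.one_lt.le
      have hkR : (1:ℝ) ≤ k := by exact_mod_cast hk
      have hpos : 0 ≤ 1 - 1 / ((k:ℝ) * p) := by
        rw [sub_nonneg, div_le_one (by positivity)]
        nlinarith
      calc (p:ℝ)^2 * (1 - 1 / (k * p)) * ∑ i ∈ range k, (U (ZMod m) ((r + (i+1) : ℕ) : ZMod m) : ℝ)
          ≤ (p:ℝ)^2 * (1 - 1 / (k * p)) * ((m:ℝ)^2 * (k * ∏ p ∈ P, (1 - 1 / ((k:ℝ) * p)))) := by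
            apply mul_le_mul_of_nonneg_left hr (by positivity)
        _ = _ := by push_cast; ring

end Pool.Agent.SumCubes
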