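import Mathlib
import Pool.Agent.SumCubes.Greedy
import Pool.Agent.SumCubes.Div

namespace Pool.Agent.SumCubes

open Finset

theorem ev_cube (C d : ℝ) (hC0 : 0 ≤ C) (hd0 : 0 < d) :
    ∀ᶠ N : ℕ in Filter.atTop, ∃ K : ℕ, N < K^3 ∧ C * (K:ℝ)^2 ≤ d * N := by
  have key : ∀ᶠ K : ℕ in Filter.atTop, 8 * (C * 4) ≤ d * K := by
    filter_upwards [Filter.eventually_ge_atTop ⌈8 * (C * 4) / d⌉₊] with K hK
    have := Nat.le_of_ceil_le hK
    rw [div_le_iff₀ hd0] at this
    linarith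
  obtain ⟨K0, hK0⟩ := Filter.eventually_atTop.1 key
  filter_upwards [Filter.eventually_ge_atTop ((K0+2)^3)] with N hN
  have hex : ∃ k : ℕ, k^3 ≤ N ∧ N < (k+1)^3 := by
    have : ∃ n : ℕ, N < (n+1)^3 := ⟨N, by
      have := le_cube (N+1)
      omega⟩
    classical
    refine ⟨Nat.find this, ?_, Nat.find_spec this⟩
    rcases Nat.eq_zero_or_pos (Nat.find this) with h | h
    · rw [h]; simp
    · have := Nat.find_min this (m := Nat.find this - 1) (by omega)
      rw [Nat.sub_add_cancel h] at this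
      omega
  obtain ⟨k, hk1, hk2⟩ := hex
  have hkK : K0 + 1 ≤ k := by
    by_contra hc
    have : (k+1)^3 ≤ (K0+2)^3 := Nat.pow_le_pow_left (by omega) 3
    omega
  have h2 := hK0 k (by omega)
  have hk0 : (1:ℝ) ≤ k := by
    have : 1 ≤ k := by omega
    exact_mod_cast this
  have h3 : (k:ℝ)^3 ≤ N := by exact_mod_cast hk1
  refine ⟨k+1, hk2, ?_⟩
  push_cast
  have h5 : ((k:ℝ)+1)^2 ≤ 4 * (k:ℝ)^2 := by nlinarith
  calc C * ((k:ℝ)+1)^2 ≤ C * (4 * (k:ℝ)^2) := by gcongr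
    _ = (C * 4) * (k:ℝ)^2 := by ring
    _ ≤ (d * k) * (k:ℝ)^2 := by
        have : C * 4 ≤ d * k := by nlinarith
        gcongr
    _ = d * (k:ℝ)^3 := by ring
    _ ≤ d * N := by gcongr

theorem prod_small (k : ℕ) (hk : 1 ≤ k) (e : ℝ) (he : 0 < e) : ∃ P : Finset ℕ,
    (∀ p ∈ P, p.Prime ∧ p % 3 = 1 ∧ 100 * k^2 ≤ p) ∧ (k:ℝ) * ∏ p ∈ P, (1 - 1 / ((k:ℝ) * p)) ≤ e := by
  have hk0 : (0:ℝ) < k := by exact_mod_cast hk
  obtain ⟨P, hP, hM⟩ := exists_primes (100 * k^2) (k * Real.log (k / e))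
  refine ⟨P, fun p hp => ⟨(hP p hp).1, (hP p hp).2.1, (hP p hp).2.2.le⟩, ?_⟩
  have h1 : ∏ p ∈ P, (1 - 1 / ((k:ℝ) * p)) ≤ ∏ p ∈ P, Real.exp (-(1 / ((k:ℝ) * p))) := by
    apply prod_le_prod
    · intro p hp
      have hp1 : (1:ℝ) ≤ p := by exact_mod_cast (hP p hp).1.one_lt.le
      have hk1 : (1:ℝ) ≤ k := by exact_mod_cast hk
      rw [sub_nonneg, div_le_one (by positivity)]
      nlinarith
    · intro p _
      have := Real.add_one_le_exp (-(1 / ((k:ℝ) * p)))
      linarith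
  rw [← Real.exp_sum] at h1
  have h2 : ∑ p ∈ P, (-(1 / ((k:ℝ) * p))) = -((∑ p ∈ P, (1:ℝ)/p) / k) := by
    rw [sum_neg_distrib, sum_div]
    congr 1
    apply sum_congr rfl
    intro p _
    rw [div_div, mul_comm]
  rw [h2] at h1
  have h3 : Real.log (k / e) ≤ (∑ p ∈ P, (1:ℝ)/p) / k := by
    rw [le_div_iff₀ hk0]; linarith
  have h4 : Real.exp (-((∑ p ∈ P, (1:ℝ)/p) / k)) ≤ e / k := by
    calc Real.exp (-((∑ p ∈ P, (1:ℝ)/p) / k)) ≤ Real.exp (-(Real.log (k / e))) :=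
          Real.exp_le_exp.2 (by linarith)
      _ = e / k := by
          rw [Real.exp_neg, Real.exp_log (by positivity), inv_div]
  calc (k:ℝ) * ∏ p ∈ P, (1 - 1 / ((k:ℝ) * p)) ≤ k * (e / k) := by
        gcongr; exact h1.trans h4
    _ = e := by field_simp

/-- windows starting after `n` without sums of three cubes -/
def good (k n : ℕ) : Prop := ∀ i : ℕ, 1 ≤ i → i ≤ k → ¬ ∃ a b c : ℕ, a^3 + b^3 + c^3 = n + i

theorem gap (k : ℕ) (hk : 1 ≤ k) (e : ℝ) (he : 0 < e) :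
    ∃ m r : ℕ, 0 < m ∧ ∀ᶠ N : ℕ in Filter.atTop,
      (1 - e) * ((N:ℝ) / m) ≤ (Set.ncard {n : ℕ | n < N ∧ n ≡ r [MOD m] ∧ good k n} : ℝ) := by
  classical
  obtain ⟨P, hP, hPe⟩ := prod_small k hk (e/2) (by positivity)
  obtain ⟨m, hm, r, _, hr⟩ := build k hk P hP
  have hm0 : 0 < m := Nat.pos_of_ne_zero (NeZero.ne m)
  have hmR : (0:ℝ) < m := by exact_mod_cast hm0
  refine ⟨m, r, hm0, ?_⟩
  set V : ℝ := Real.Gamma (4/3) ^ 3 with hV
  have hG : 0 < Real.Gamma (4/3) := Real.Gamma_pos_of_pos (by norm_num)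
  have hV0 : 0 < V := by positivity
  have hV1 : V ≤ 1 := by
    have h := gamma_bound
    calc V ≤ 0.89304 ^ 3 := pow_le_pow_left₀ hG.le h 3
      _ ≤ 1 := by norm_num
  set u : ℕ → ℝ := fun i => (U (ZMod m) ((r + (i+1) : ℕ) : ZMod m) : ℝ) with hu
  have hu0 : ∀ i, 0 ≤ u i := fun i => Nat.cast_nonneg _
  set A := ∑ i ∈ range k, u i with hA
  have hA0 : 0 ≤ A := sum_nonneg (fun i _ => hu0 i)
  have hA1 : A ≤ (m:ℝ)^2 * (e/2) := by
    refine hr.trans ?_
    gcongr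
  -- the error constant
  set C : ℝ := A + k + 1 + (e + 1) * k + 1 with hC
  have hC0 : 0 ≤ C := by positivity
  have hev := (Filter.tendsto_add_atTop_nat k).eventually (ev_cube C (e / (4 * m)) hC0 (by positivity))
  filter_upwards [hev, Filter.eventually_ge_atTop k] with N hN hNk
  obtain ⟨K, hK1, hK2⟩ := hN
  have hKpos : 1 ≤ K := by
    rcases Nat.eq_zero_or_pos K with h | h
    · subst h; simp at hK1
    · exact h
  have hK1' : (1:ℝ) ≤ (K:ℝ)^2 := by
    have : (1:ℝ) ≤ K := by exact_mod_cast hKpos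
    nlinarith
  -- the class
  set Cl := (range N).filter (fun n => n ≡ r [MOD m]) with hCl
  set Gd := (range N).filter (fun n => n ≡ r [MOD m] ∧ good k n) with hGd
  have hset : {n : ℕ | n < N ∧ n ≡ r [MOD m] ∧ good k n} = (Gd : Set ℕ) := by
    ext n; simp [hGd]
  rw [hset, Set.ncard_coe_finset]
  have hClc : (N:ℝ) / m - 1 ≤ (Cl.card : ℝ) := by
    have h1 : N / m ≤ Cl.card := by
      calc N / m = (range (N / m)).card := (card_range _).symm
        _ ≤ Cl.card := by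
          apply card_le_card_of_injOn (fun j => r % m + m * j)
          · intro j hj
            simp only [coe_range, Set.mem_Iio] at hj
            simp only [hCl, coe_filter, Set.mem_ofPred_eq, mem_range]
            constructor
            · have h2 : m * (j + 1) ≤ m * (N / m) := Nat.mul_le_mul_left m hj
              have h3 : m * (N / m) ≤ N := Nat.mul_div_le N m
              have h4 : r % m < m := Nat.mod_lt _ hm0
              rw [mul_add, mul_one] at h2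
              omega
            · show (r % m + m * j) % m = r % m
              simp
          · intro a _ b _ h
            simp only [add_right_inj] at h
            exact Nat.eq_of_mul_eq_mul_left hm0 h
    have h2 : (N:ℝ) / m < ((N / m : ℕ) : ℝ) + 1 := by
      rw [div_lt_iff₀ hmR]
      have := Nat.lt_div_mul_add (a := N) hm0
      have h3 : N < (N / m + 1) * m := by rw [add_mul, one_mul]; exact this
      exact_mod_cast h3
    have h3 : ((N / m : ℕ) : ℝ) ≤ Cl.card := by exact_mod_cast h1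
    linarith
  have hcov : Cl ⊆ Gd ∪ (range k).biUnion (fun i => (Cl.filter
      (fun n => ∃ a b c : ℕ, a^3 + b^3 + c^3 = n + (i+1)))) := by
    intro n hn
    rw [mem_union]
    by_cases hg : good k n
    · left
      simp only [hCl, mem_filter] at hn
      simp only [hGd, mem_filter]
      exact ⟨hn.1, hn.2, hg⟩
    · right
      unfold good at hg
      push Not at hg
      obtain ⟨i, hi1, hi2, hi3⟩ := hg
      rw [mem_biUnion]
      refine ⟨i - 1, mem_range.2 (by omega), ?_⟩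
      rw [mem_filter]
      refine ⟨hn, ?_⟩
      rw [Nat.sub_add_cancel hi1]
      exact hi3
  have hB : ∀ i ∈ range k, ((Cl.filter (fun n => ∃ a b c : ℕ, a^3 + b^3 + c^3 = n + (i+1))).card : ℝ) ≤
      u i * (V * (((N + k : ℕ) : ℝ) / (m:ℝ)^3 + 1) + 3 * (K:ℝ)^2) / 6 + (K:ℝ)^2 := by
    intro i hi
    have h1 := S_card_bd (N + k) m K hK1 ((r + (i+1) : ℕ) : ZMod m)
    refine le_trans ?_ h1
    have : (Cl.filter (fun n => ∃ a b c : ℕ, a^3 + b^3 + c^3 = n + (i+1))).card ≤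
        (S (N + k) m ((r + (i+1) : ℕ) : ZMod m)).card := by
      apply card_le_card_of_injOn (fun n => n + (i+1))
      · intro n hn
        simp only [hCl, coe_filter, Set.mem_ofPred_eq, mem_filter, mem_range] at hn
        simp only [S, coe_filter, Set.mem_ofPred_eq, mem_range]
        rw [mem_range] at hi
        refine ⟨by omega, hn.2, ?_⟩
        rw [ZMod.natCast_eq_natCast_iff]
        exact Nat.ModEq.add_right _ hn.1.2
      · intro a _ b _ h
        simpa using h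
    exact_mod_cast this
  have hcard : (Cl.card : ℝ) ≤ Gd.card + ∑ i ∈ range k,
      (u i * (V * (((N + k : ℕ) : ℝ) / (m:ℝ)^3 + 1) + 3 * (K:ℝ)^2) / 6 + (K:ℝ)^2) := by
    have h1 : Cl.card ≤ Gd.card + ∑ i ∈ range k,
        (Cl.filter (fun n => ∃ a b c : ℕ, a^3 + b^3 + c^3 = n + (i+1))).card :=
      (card_le_card hcov).trans ((card_union_le _ _).trans (by gcongr; exact card_biUnion_le))
    have h2 : (Cl.card : ℝ) ≤ Gd.card + ∑ i ∈ range k,
        ((Cl.filter (fun n => ∃ a b c : ℕ, a^3 + b^3 + c^3 = n + (i+1))).card : ℝ) := by exact_mod_cast h1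
    refine h2.trans ?_
    gcongr with i hi
    exact hB i hi
  have hsum : ∑ i ∈ range k,
      (u i * (V * (((N + k : ℕ) : ℝ) / (m:ℝ)^3 + 1) + 3 * (K:ℝ)^2) / 6 + (K:ℝ)^2) =
      A * (V * (((N + k : ℕ) : ℝ) / (m:ℝ)^3 + 1) + 3 * (K:ℝ)^2) / 6 + k * (K:ℝ)^2 := by
    rw [sum_add_distrib, ← sum_div, ← sum_mul, sum_const, card_range, nsmul_eq_mul]
  rw [hsum] at hcard
  push_cast at hcard hK2
  set x : ℝ := (N:ℝ) + k with hx
  have hx0 : 0 ≤ x := by positivity
  have hxN : x ≤ 2 * N := by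
    have : (k:ℝ) ≤ N := by exact_mod_cast hNk
    linarith
  have hm3 : 0 < (m:ℝ)^3 := by positivity
  have h1 : A * (V * (x / (m:ℝ)^3 + 1) + 3 * (K:ℝ)^2) / 6 ≤
      (e/2) * (x / m) / 6 + A * (K:ℝ)^2 := by
    have h2 : V * (x / (m:ℝ)^3 + 1) ≤ x / (m:ℝ)^3 + 1 := mul_le_of_le_one_left (by positivity) hV1
    have h3 : A * (x / (m:ℝ)^3) ≤ (e/2) * (x / m) := by
      calc A * (x / (m:ℝ)^3) ≤ (m:ℝ)^2 * (e/2) * (x / (m:ℝ)^3) :=
            mul_le_mul_of_nonneg_right hA1 (by positivity)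
        _ = (e/2) * (x / m) := by field_simp
    have h4 : A * (V * (x / (m:ℝ)^3 + 1) + 3 * (K:ℝ)^2) ≤ A * (x / (m:ℝ)^3 + 1 + 3 * (K:ℝ)^2) := by
      gcongr
    have h5 : A ≤ A * (K:ℝ)^2 := le_mul_of_one_le_right hA0 hK1'
    nlinarith
  have hk0 : (0:ℝ) ≤ k := Nat.cast_nonneg k
  have h6 : (e/2) * (x / m) / 6 ≤ (e/2) * (N / m) := by
    have : (x / m) ≤ 2 * (N / m) := by
      rw [← mul_div_assoc]
      gcongr
    have h0 : 0 ≤ (N:ℝ) / m := by positivity
    nlinarith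
  have h7 : A * (K:ℝ)^2 + k * (K:ℝ)^2 + 1 ≤ C * (K:ℝ)^2 := by
    rw [hC]
    nlinarith [mul_nonneg (mul_nonneg (by linarith : 0 ≤ e + 1) hk0) (by linarith : 0 ≤ (K:ℝ)^2)]
  have h8 : e / (4 * m) * x ≤ (e / 2) * (N / m) := by
    calc e / (4 * m) * x ≤ e / (4 * m) * (2 * N) := by gcongr
      _ = (e/2) * (N / m) := by field_simp; ring
  have h9 : (1 - e) * ((N:ℝ) / m) = (N:ℝ) / m - (e/2) * (N / m) - (e/2) * (N / m) := by ring
  rw [h9]
  linarith

end Pool.Agent.SumCubes
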