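import Mathlib
import Pool.Agent.SumCubes.Data

namespace Pool.Agent.SumCubes

open Finset

theorem t0 : evq (1000000 * (64 * (243 * (7 * (13 * (19 * (31 * (37 * (43 * (61 * 67)))))))))^2) TT 118703 ≤
   116799 * (64 * (243 * (7 * (13 * (19 * (31 * (37 * (43 * (61 * 67)))))))))^3 := by
  decide +kernel

/-- the products of maxima and of totals -/
def prods : List (List (ℕ × ℕ) × ℕ × ℕ) → ℕ × ℕ
  | [] => (1, 1)
  | q :: Ts => (mx q.1 * (prods Ts).1, sm q.1 * (prods Ts).2)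

/-- computed version of `okq` -/
def okc : List (List (ℕ × ℕ) × ℕ × ℕ) → Bool
  | [] => true
  | q :: Ts => (q.2.1 == (prods (q :: Ts)).1) && ((q.2.2 == (prods (q :: Ts)).2) && okc Ts)

theorem okq_of_okc (Ts : List (List (ℕ × ℕ) × ℕ × ℕ)) (h : okc Ts = true) : okq Ts (prods Ts) := by
  induction Ts with
  | nil => rfl
  | cons q Ts ih =>
    simp only [okc, Bool.and_eq_true, beq_iff_eq] at h
    exact ⟨h.1, h.2.1, prods Ts, ih h.2.2, rfl⟩

theorem okTT : ∃ r, okq TT r := ⟨_, okq_of_okc TT (by decide +kernel)⟩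

theorem t1 : evf (fun v => min (1000000 * (64 * (243 * (7 * (13 * (19 * (31 * (37 * (43 * (61 * 67)))))))))^2) v)
   [T64, T243, T7, T13, T19, T31, T37, T43, T61, T67] 118703 ≤
   116799 * (64 * (243 * (7 * (13 * (19 * (31 * (37 * (43 * (61 * 67)))))))))^3 := by
  obtain ⟨r, hr⟩ := okTT
  have := evq_eq (1000000 * (64 * (243 * (7 * (13 * (19 * (31 * (37 * (43 * (61 * 67)))))))))^2) TT r hr 118703
  exact (le_of_eq this.symm).trans t0

instance nz1 : NeZero (61 * 67) := ⟨by norm_num⟩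
instance nz2 : NeZero (43 * (61 * 67)) := ⟨by norm_num⟩
instance nz3 : NeZero (37 * (43 * (61 * 67))) := ⟨by norm_num⟩
instance nz4 : NeZero (31 * (37 * (43 * (61 * 67)))) := ⟨by norm_num⟩
instance nz5 : NeZero (19 * (31 * (37 * (43 * (61 * 67))))) := ⟨by norm_num⟩
instance nz6 : NeZero (13 * (19 * (31 * (37 * (43 * (61 * 67)))))) := ⟨by norm_num⟩
instance nz7 : NeZero (7 * (13 * (19 * (31 * (37 * (43 * (61 * 67))))))) := ⟨by norm_num⟩
instance nz8 : NeZero (243 * (7 * (13 * (19 * (31 * (37 * (43 * (61 * 67)))))))) := ⟨by norm_num⟩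
instance nz9 : NeZero (64 * (243 * (7 * (13 * (19 * (31 * (37 * (43 * (61 * 67))))))))) := ⟨by norm_num⟩

theorem tabs : Tab (64 * (243 * (7 * (13 * (19 * (31 * (37 * (43 * (61 * 67)))))))))
    [T64, T243, T7, T13, T19, T31, T37, T43, T61, T67] := by
  apply tab_mul 64 _ _ _ _ _ _ c64 (by norm_num)
  apply tab_mul 243 _ _ _ _ _ _ c243 (by norm_num)
  apply tab_mul 7 _ _ _ _ _ _ c7 (by norm_num)
  apply tab_mul 13 _ _ _ _ _ _ c13 (by norm_num)
  apply tab_mul 19 _ _ _ _ _ _ c19 (by norm_num)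
  apply tab_mul 31 _ _ _ _ _ _ c31 (by norm_num)
  apply tab_mul 37 _ _ _ _ _ _ c37 (by norm_num)
  apply tab_mul 43 _ _ _ _ _ _ c43 (by norm_num)
  apply tab_mul 61 _ _ _ _ _ _ c61 (by norm_num)
  exact tab_one 67 _ _ _ _ _ c67

theorem loc_le (m : ℕ) [NeZero m] (Ts : List (List (ℕ × ℕ))) (hT : Tab m Ts) (x : ℕ)
    (hx : evf (fun v => min (1000000 * m^2) v) Ts 118703 ≤ x * m^3) :
    loc m ≤ x / 1000000 := by
  have hm : (0:ℝ) < m := by exact_mod_cast Nat.pos_of_ne_zero (NeZero.ne m)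
  have hG : 0 < Real.Gamma (4/3) := Real.Gamma_pos_of_pos (by norm_num)
  have hG2 : Real.Gamma (4/3) ^ 3 / 6 ≤ 118703 / 1000000 := by
    have h := gamma_bound
    have : Real.Gamma (4/3) ^ 3 ≤ 0.89304 ^ 3 := pow_le_pow_left₀ hG.le h 3
    norm_num at this ⊢
    linarith
  have h1 := hT (fun v => min (1000000 * m^2) v) 118703
  rw [← h1] at hx
  have h2 : (∑ r : ZMod m, min (1000000 * (m:ℝ)^2) (118703 * (U (ZMod m) r : ℝ))) ≤ x * (m:ℝ)^3 := by
    exact_mod_cast hx
  calc loc m ≤ ∑ r : ZMod m, min (1000000 * (m:ℝ)^2) (118703 * (U (ZMod m) r : ℝ)) /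
        (1000000 * (m:ℝ)^3) := by
        unfold loc
        apply sum_le_sum
        intro r _
        have hmin : min (1000000 * (m:ℝ)^2) (118703 * (U (ZMod m) r : ℝ)) / (1000000 * (m:ℝ)^3) =
            min (1000000 * (m:ℝ)^2 / (1000000 * (m:ℝ)^3))
              (118703 * (U (ZMod m) r : ℝ) / (1000000 * (m:ℝ)^3)) :=
          (min_div_div_right (by positivity) _ _).symm
        rw [hmin]
        apply min_le_min
        · apply le_of_eq
          field_simp
        · have e : 118703 * (U (ZMod m) r : ℝ) / (1000000 * (m:ℝ)^3) =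
              118703 / 1000000 * (U (ZMod m) r : ℝ) / (m:ℝ)^3 := by field_simp
          rw [e]
          gcongr
    _ = (∑ r : ZMod m, min (1000000 * (m:ℝ)^2) (118703 * (U (ZMod m) r : ℝ))) /
        (1000000 * (m:ℝ)^3) := by rw [sum_div]
    _ ≤ (x * (m:ℝ)^3) / (1000000 * (m:ℝ)^3) := by gcongr
    _ = x / 1000000 := by field_simp

theorem final : ∀ᶠ N : ℕ in Filter.atTop, (cnt N : ℝ) ≤ 0.1168 * N := by
  apply eventually_le (64 * (243 * (7 * (13 * (19 * (31 * (37 * (43 * (61 * 67)))))))))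
  have h := loc_le (64 * (243 * (7 * (13 * (19 * (31 * (37 * (43 * (61 * 67))))))))) _ tabs 116799 t1
  refine lt_of_le_of_lt h ?_
  norm_num

end Pool.Agent.SumCubes
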