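import Mathlib
import Pool.Agent.SumCubes.Count

namespace Pool.Agent.SumCubes

open Finset

/-- the `x`-th digit of `E` in base `2^k` -/
def dg (k E x : ℕ) : ℕ := (E >>> (k * x)) % 2^k

/-- one convolution step, computed -/
def stp (q k E x : ℕ) : ℕ :=
  ((List.range q).map (fun c => dg k E ((x + (q - c^3 % q)) % q))).sum

/-- the computed check -/
def chk (q k E1 E2 E3 : ℕ) (T : List (ℕ × ℕ)) : Bool :=
  (List.range q).all (fun x => dg k E1 x == stp q k 1 x) &&
  ((List.range q).all (fun x => dg k E2 x == stp q k E1 x) &&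
  ((List.range q).all (fun x => dg k E3 x == stp q k E2 x) &&
  (decide (1 ≤ k) &&
  decide (((List.range q).map (fun x => dg k E3 x)).Perm
    (T.flatMap (fun p => List.replicate p.2 p.1))))))

/-- convolution with the cubes -/
def cv (q : ℕ) [NeZero q] (g : ZMod q → ℕ) (x : ZMod q) : ℕ := ∑ c : ZMod q, g (x - c^3)

theorem sum_list (q : ℕ) (g : ℕ → ℕ) :
    ((List.range q).map g).sum = ∑ c ∈ range q, g c := by
  induction q with
  | zero => simp
  | succ q ih => rw [List.range_succ, Finset.sum_range_succ, ← ih]; simp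

theorem sum_zmod (q : ℕ) [NeZero q] (g : ZMod q → ℕ) :
    ∑ c : ZMod q, g c = ((List.range q).map (fun c : ℕ => g (c : ZMod q))).sum := by
  rw [sum_list]
  symm
  apply Finset.sum_nbij' (fun c : ℕ => (c : ZMod q)) (fun x : ZMod q => x.val)
  · intro a _; exact mem_univ _
  · intro a _; exact mem_range.2 (ZMod.val_lt a)
  · intro a ha; exact ZMod.val_cast_of_lt (mem_range.1 ha)
  · intro a _; exact ZMod.natCast_zmod_val a
  · intro a _; rfl

theorem step_ok (q k E E' : ℕ) [NeZero q] (g : ZMod q → ℕ) (h : ∀ x : ZMod q, dg k E x.val = g x)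
    (hs : ∀ x < q, dg k E' x = stp q k E x) (x : ZMod q) : dg k E' x.val = cv q g x := by
  rw [hs x.val (ZMod.val_lt x), cv, sum_zmod, stp]
  congr 1
  apply List.map_congr_left
  intro c _
  rw [← h]
  congr 1
  have hq : 0 < q := Nat.pos_of_ne_zero (NeZero.ne q)
  have : x - (c : ZMod q)^3 = ((x.val + (q - c^3 % q) : ℕ) : ZMod q) := by
    rw [Nat.cast_add, Nat.cast_sub (Nat.mod_lt _ hq).le]
    simp
    ring
  rw [this, ZMod.val_natCast]

theorem U_eq (q : ℕ) [NeZero q] (r : ZMod q) :
    U (ZMod q) r = cv q (cv q (cv q (fun x => if x = 0 then 1 else 0))) r := by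
  unfold U cv
  rw [Finset.card_filter, Fintype.sum_prod_type]
  apply sum_congr rfl
  intro a _
  rw [Fintype.sum_prod_type]
  apply sum_congr rfl
  intro b _
  apply sum_congr rfl
  intro c _
  have : (a^3 + b^3 + c^3 = r) ↔ (r - a^3 - b^3 - c^3 = 0) := by
    constructor
    · intro h; rw [← h]; ring
    · intro h; linear_combination -h
  simp only [this]

theorem dg_one (q k : ℕ) [NeZero q] (hk : 1 ≤ k) (x : ZMod q) :
    dg k 1 x.val = if x = 0 then 1 else 0 := by
  by_cases h : x = 0
  · subst h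
    simp [dg]
    omega
  · rw [if_neg h]
    have hx : x.val ≠ 0 := by
      rw [Ne, ZMod.val_eq_zero]; exact h
    have : 1 ≤ k * x.val := Nat.one_le_iff_ne_zero.2 (Nat.mul_ne_zero (by omega) hx)
    unfold dg
    have h2 : 1 >>> (k * x.val) = 0 := by
      rw [Nat.shiftRight_eq_div_pow]
      exact Nat.div_eq_of_lt (Nat.one_lt_two_pow (by omega))
    rw [h2]
    simp

theorem table (q k E1 E2 E3 : ℕ) [NeZero q] (T : List (ℕ × ℕ)) (h : chk q k E1 E2 E3 T = true)
    (f : ℕ → ℕ) :
    ∑ r : ZMod q, f (U (ZMod q) r) = (T.map (fun p => p.2 * f p.1)).sum := by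
  unfold chk at h
  simp only [Bool.and_eq_true, List.all_eq_true, List.mem_range, beq_iff_eq, decide_eq_true_eq] at h
  obtain ⟨h1, h2, h3, hk, hp⟩ := h
  have e1 := step_ok q k 1 E1 _ (dg_one q k hk) h1
  have e2 := step_ok q k E1 E2 _ e1 h2
  have e3 := step_ok q k E2 E3 _ e2 h3
  have e4 : ∀ r : ZMod q, U (ZMod q) r = dg k E3 r.val := fun r => by rw [e3, U_eq]
  simp only [e4]
  rw [sum_zmod]
  have e5 : ((List.range q).map (fun c : ℕ => f (dg k E3 ((c : ZMod q).val)))) =
      ((List.range q).map (fun x => dg k E3 x)).map f := by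
    rw [List.map_map]
    apply List.map_congr_left
    intro c hc
    rw [List.mem_range] at hc
    simp only [Function.comp_apply]
    rw [ZMod.val_cast_of_lt hc]
  rw [e5, (hp.map f).sum_eq]
  clear hp
  induction T with
  | nil => simp
  | cons p T ih =>
    rw [List.flatMap_cons, List.map_append, List.sum_append, List.map_cons, List.sum_cons, ih]
    simp

/-- one convolution step, computed with the list of cubes with multiplicities -/
def stp2 (q k E : ℕ) (L : List (ℕ × ℕ)) (x : ℕ) : ℕ :=
  (L.map (fun p => p.2 * dg k E ((x + (q - p.1)) % q))).sum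

/-- the computed check, faster version -/
def chk2 (q k E1 E2 E3 : ℕ) (L T : List (ℕ × ℕ)) : Bool :=
  decide (((List.range q).map (fun c => c^3 % q)).Perm (L.flatMap (fun p => List.replicate p.2 p.1))) &&
  ((List.range q).all (fun x => dg k E1 x == stp2 q k 1 L x) &&
  ((List.range q).all (fun x => dg k E2 x == stp2 q k E1 L x) &&
  ((List.range q).all (fun x => dg k E3 x == stp2 q k E2 L x) &&
  (decide (1 ≤ k) &&
  decide (((List.range q).map (fun x => dg k E3 x)).Perm
    (T.flatMap (fun p => List.replicate p.2 p.1)))))))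

theorem flat_sum (L : List (ℕ × ℕ)) (g : ℕ → ℕ) :
    ((L.flatMap (fun p => List.replicate p.2 p.1)).map g).sum = (L.map (fun p => p.2 * g p.1)).sum := by
  induction L with
  | nil => simp
  | cons p T ih =>
    rw [List.flatMap_cons, List.map_append, List.sum_append, List.map_cons, List.sum_cons, ih]
    simp

theorem stp2_eq (q k E : ℕ) (L : List (ℕ × ℕ))
    (h : ((List.range q).map (fun c => c^3 % q)).Perm (L.flatMap (fun p => List.replicate p.2 p.1)))
    (x : ℕ) : stp2 q k E L x = stp q k E x := by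
  unfold stp2 stp
  rw [← flat_sum L (fun v => dg k E ((x + (q - v)) % q)), ← (h.map _).sum_eq, List.map_map]
  rfl

theorem chk_of_chk2 (q k E1 E2 E3 : ℕ) (L T : List (ℕ × ℕ)) (h : chk2 q k E1 E2 E3 L T = true) :
    chk q k E1 E2 E3 T = true := by
  unfold chk2 at h
  unfold chk
  simp only [Bool.and_eq_true, List.all_eq_true, List.mem_range, beq_iff_eq, decide_eq_true_eq] at h ⊢
  obtain ⟨hL, h1, h2, h3, hk, hp⟩ := h
  simp only [stp2_eq q k _ L hL] at h1 h2 h3
  exact ⟨h1, h2, h3, hk, hp⟩

theorem crt (m n : ℕ) [NeZero m] [NeZero n] [NeZero (m * n)] (h : Nat.Coprime m n) (f : ℕ → ℕ) :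
    ∑ r : ZMod (m * n), f (U (ZMod (m * n)) r) =
      ∑ r : ZMod m, ∑ s : ZMod n, f (U (ZMod m) r * U (ZMod n) s) := by
  classical
  rw [← Fintype.sum_prod_type' (f := fun r s => f (U (ZMod m) r * U (ZMod n) s))]
  apply Fintype.sum_equiv (ZMod.chineseRemainder h).toEquiv
  intro x
  congr 1
  set e := ZMod.chineseRemainder h
  show U (ZMod (m*n)) x = U (ZMod m) (e x).1 * U (ZMod n) (e x).2
  unfold U
  rw [← card_product]
  apply Finset.card_bij' (fun u _ => (((e u.1).1, (e u.2.1).1, (e u.2.2).1),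
      ((e u.1).2, (e u.2.1).2, (e u.2.2).2)))
    (fun v _ => (e.symm (v.1.1, v.2.1), e.symm (v.1.2.1, v.2.2.1), e.symm (v.1.2.2, v.2.2.2)))
  · intro u hu
    simp only [mem_filter, mem_univ, true_and] at hu
    simp only [mem_product, mem_filter, mem_univ, true_and]
    rw [← hu]
    simp [Prod.fst_add, Prod.snd_add]
  · intro v hv
    simp only [mem_product, mem_filter, mem_univ, true_and] at hv
    simp only [mem_filter, mem_univ, true_and]
    apply e.injective
    simp only [map_add, map_pow, RingEquiv.apply_symm_apply]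
    apply Prod.ext
    · simpa using hv.1
    · simpa using hv.2
  · intro u _
    simp
  · intro v _
    simp

/-- nested evaluation -/
def evf (f : ℕ → ℕ) : List (List (ℕ × ℕ)) → ℕ → ℕ
  | [], y => f y
  | T :: Ts, y => (T.map (fun p => p.2 * evf f Ts (y * p.1))).sum

/-- the tables describe the distribution of `U` modulo `m` -/
def Tab (m : ℕ) [NeZero m] (Ts : List (List (ℕ × ℕ))) : Prop :=
  ∀ (f : ℕ → ℕ) (y : ℕ), ∑ r : ZMod m, f (y * U (ZMod m) r) = evf f Ts y

theorem tab_one (q k E1 E2 E3 : ℕ) [NeZero q] (T : List (ℕ × ℕ)) (h : chk q k E1 E2 E3 T = true) :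
    Tab q [T] := by
  intro f y
  rw [table q k E1 E2 E3 T h (fun v => f (y * v))]
  rfl

theorem tab_mul (q m k E1 E2 E3 : ℕ) [NeZero q] [NeZero m] [NeZero (q * m)] (T : List (ℕ × ℕ))
    (h : chk q k E1 E2 E3 T = true) (hc : Nat.Coprime q m) (Ts : List (List (ℕ × ℕ)))
    (hT : Tab m Ts) : Tab (q * m) (T :: Ts) := by
  intro f y
  rw [crt q m hc (fun v => f (y * v))]
  have : ∀ r : ZMod q, ∑ s : ZMod m, f (y * (U (ZMod q) r * U (ZMod m) s)) =
      evf f Ts (y * U (ZMod q) r) := by
    intro r
    rw [← hT f (y * U (ZMod q) r)]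
    simp only [mul_assoc]
  simp only [this]
  rw [table q k E1 E2 E3 T h (fun v => evf f Ts (y * v))]
  rfl

/-- the largest value in a table -/
def mx (T : List (ℕ × ℕ)) : ℕ := T.foldr (fun p a => max p.1 a) 0

/-- the total of a table -/
def sm (T : List (ℕ × ℕ)) : ℕ := (T.map (fun p => p.2 * p.1)).sum

/-- nested evaluation of a truncated linear function, with shortcuts; the entries are
(table, product of the maxima from here on, product of the totals from here on) -/
def evq (B : ℕ) : List (List (ℕ × ℕ) × ℕ × ℕ) → ℕ → ℕ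
  | [], y => min B y
  | q :: Ts, y => if y * q.2.1 ≤ B then y * q.2.2 else (q.1.map (fun p => p.2 * evq B Ts (y * p.1))).sum

/-- correctness of the recorded products -/
def okq : List (List (ℕ × ℕ) × ℕ × ℕ) → ℕ × ℕ → Prop
  | [], r => r = (1, 1)
  | q :: Ts, r => q.2.1 = r.1 ∧ q.2.2 = r.2 ∧ ∃ r', okq Ts r' ∧ r = (mx q.1 * r'.1, sm q.1 * r'.2)

theorem evf_lin (B : ℕ) (Ts : List (List (ℕ × ℕ) × ℕ × ℕ)) (r : ℕ × ℕ) (h : okq Ts r) (y : ℕ)
    (hy : y * r.1 ≤ B) : evf (fun v => min B v) (Ts.map Prod.fst) y = y * r.2 := by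
  induction Ts generalizing r y with
  | nil =>
    simp only [okq] at h
    subst h
    simp only [evf, List.map_nil, mul_one] at hy ⊢
    exact min_eq_right hy
  | cons q Ts ih =>
    simp only [okq] at h
    obtain ⟨_, _, r', h', rfl⟩ := h
    rw [List.map_cons, evf]
    have key : ∀ T : List (ℕ × ℕ), y * (mx T * r'.1) ≤ B →
        (T.map (fun p => p.2 * evf (fun v => min B v) (Ts.map Prod.fst) (y * p.1))).sum =
          y * (sm T * r'.2) := by
      intro T
      induction T with
      | nil => intro _; simp [sm]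
      | cons p T ihT =>
        intro hB
        have hm : mx (p :: T) = max p.1 (mx T) := rfl
        rw [hm] at hB
        have h1 : y * p.1 * r'.1 ≤ B := by
          refine le_trans ?_ hB
          rw [mul_assoc]
          gcongr
          exact le_max_left _ _
        have h2 : y * (mx T * r'.1) ≤ B := by
          refine le_trans ?_ hB
          gcongr
          exact le_max_right _ _
        rw [List.map_cons, List.sum_cons, ihT h2, ih r' h' _ h1]
        have hs : sm (p :: T) = p.2 * p.1 + sm T := by simp [sm]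
        rw [hs]
        ring
    exact key q.1 hy

theorem evq_eq (B : ℕ) (Ts : List (List (ℕ × ℕ) × ℕ × ℕ)) (r : ℕ × ℕ) (h : okq Ts r) (y : ℕ) :
    evq B Ts y = evf (fun v => min B v) (Ts.map Prod.fst) y := by
  induction Ts generalizing r y with
  | nil => rfl
  | cons q Ts ih =>
    have h0 := h
    simp only [okq] at h
    obtain ⟨hq1, hq2, r', h', hr⟩ := h
    rw [evq]
    split_ifs with hc
    · rw [evf_lin B (q :: Ts) r h0 y (by rw [← hq1]; exact hc), hq2]
    · rw [List.map_cons, evf]
      simp only [ih r' h']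

end Pool.Agent.SumCubes
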